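import Pool.Agent.T9h48.Steps

/-!
# Counting positive zeros of sums of rational functions of powers
-/

open Polynomial Complex Filter Topology

set_option linter.unusedSectionVars false

namespace Pool.Agent.T9h48

noncomputable section

variable {ι : Type*} [DecidableEq ι]

/-- the total degree of the denominators -/
def tdeg (Q : ι → ℝ[X]) (S : Finset ι) : ℕ := ∑ j ∈ S, (Q j).natDegree

/-- proper family: positive exponents, `deg P j ≤ deg Q j`, `Q j (0) ≠ 0` -/
structure Proper (e : ι → ℕ) (P Q : ι → ℝ[X]) (S : Finset ι) : Prop where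
  pos : ∀ j ∈ S, 0 < e j
  deg : ∀ j ∈ S, (P j).natDegree ≤ (Q j).natDegree
  zero : ∀ j ∈ S, (Q j).eval 0 ≠ 0

lemma ne_zero_of_eval {Q : ℝ[X]} (h : Q.eval 0 ≠ 0) : Q ≠ 0 := by
  rintro rfl; simp at h

lemma Proper.ne {e : ι → ℕ} {P Q : ι → ℝ[X]} {S : Finset ι} (h : Proper e P Q S) :
    ∀ j ∈ S, Q j ≠ 0 := fun j hj => ne_zero_of_eval (h.zero j hj)

lemma Proper.mono {e : ι → ℕ} {P Q : ι → ℝ[X]} {S T : Finset ι} (h : Proper e P Q S)
    (hT : T ⊆ S) : Proper e P Q T :=
  ⟨fun j hj => h.pos j (hT hj), fun j hj => h.deg j (hT hj), fun j hj => h.zero j (hT hj)⟩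

lemma Proper.rot {e : ι → ℕ} {P Q : ι → ℝ[X]} {S : Finset ι} (h : Proper e P Q S) (θ : ℝ) :
    Proper e (rP θ e P Q) (rQ θ e Q) S :=
  ⟨h.pos, fun j hj => natDegree_rotP_le _ (h.ne j hj) (h.deg j hj),
    fun j hj => rotQ_eval_zero _ (h.zero j hj)⟩

lemma tdeg_rot {Q : ι → ℝ[X]} {S : Finset ι} (h : ∀ j ∈ S, Q j ≠ 0) (θ : ℝ) (e : ι → ℕ) :
    tdeg (rQ θ e Q) S = 2 * tdeg Q S := by
  unfold tdeg rQ
  rw [Finset.mul_sum]
  refine Finset.sum_congr rfl fun j hj => ?_
  rw [natDegree_rotQ _ (h j hj)]; ring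

lemma natDegree_num_le_den {e : ι → ℕ} {P Q : ι → ℝ[X]} {S : Finset ι} (h : Proper e P Q S) :
    (num e P Q S).natDegree ≤ (den e Q S).natDegree := by
  rw [natDegree_den h.pos h.ne]
  exact natDegree_num_le h.deg

/-- from the sum to its imaginary part on a ray -/
theorem step_im {e : ι → ℕ} {P Q : ι → ℝ[X]} {S : Finset ι} (h : Proper e P Q S) {θ : ℝ}
    (h0 : 0 < θ) (hπ : θ < Real.pi) (hθ : ∀ j ∈ S, e j * θ ≤ Real.pi) :
    pos (num e P Q S) ≤ tdeg Q S + pos (num e (rP θ e P Q) (rQ θ e Q) S) + 1 := by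
  by_cases hz : num e P Q S = 0
  · rw [hz, pos_zero]; omega
  have h1 := pos_le_sec h0 (num e P Q S)
  have h2 : sec θ (num e P Q S) ≤ sec θ (den e Q S) +
      pos (num e (rP θ e P Q) (rQ θ e Q) S) + 1 := by
    refine sec_le (b := 0) h0 hπ le_rfl Real.pi_pos hz (den_eval_zero h.pos h.zero)
      (natDegree_num_le_den h) ?_
    intro y
    rw [im_identity]
    simp [ev]
  have h3 : sec θ (den e Q S) ≤ tdeg Q S := sec_den_le h.pos h.ne hθ
  omega

/-- from the ray with angle `θ` to the ray with angle `2 θ` -/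
theorem step_re {e : ι → ℕ} {P Q : ι → ℝ[X]} {S : Finset ι} (h : Proper e P Q S) {θ : ℝ}
    (h0 : 0 < θ) (hπ : θ < Real.pi) (hθ : ∀ j ∈ S, e j * θ ≤ Real.pi) :
    pos (num e (rP θ e P Q) (rQ θ e Q) S) ≤
      3 * tdeg Q S + pos (num e (rP (2 * θ) e P Q) (rQ (2 * θ) e Q) S) + 1 := by
  have h' := h.rot θ
  by_cases hz : num e (rP θ e P Q) (rQ θ e Q) S = 0
  · rw [hz, pos_zero]; omega
  have h1 := pos_le_sec h0 (num e (rP θ e P Q) (rQ θ e Q) S)
  have h2 : sec θ (num e (rP θ e P Q) (rQ θ e Q) S) ≤ sec θ (den e (rQ θ e Q) S) +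
      pos (C (1 / 2 : ℝ) * den e Q S ^ 2 * num e (rP (2 * θ) e P Q) (rQ (2 * θ) e Q) S) + 1 := by
    have hp := Real.pi_pos
    refine sec_le (b := Real.pi / 2) h0 hπ (by linarith) (by linarith) hz
      (den_eval_zero h'.pos h'.zero) (natDegree_num_le_den h') ?_
    intro y
    rw [re_identity]
    have : exp (((Real.pi / 2 : ℝ) : ℂ) * I) = I := by
      push_cast
      exact exp_pi_div_two_mul_I
    rw [this]
    simp [ev, mul_assoc]
  have h3 : sec θ (den e (rQ θ e Q) S) ≤ tdeg (rQ θ e Q) S := sec_den_le h'.pos h'.ne hθ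
  rw [tdeg_rot h.ne] at h3
  have h4 : pos (C (1 / 2 : ℝ) * den e Q S ^ 2 *
      num e (rP (2 * θ) e P Q) (rQ (2 * θ) e Q) S) ≤
      tdeg Q S + pos (num e (rP (2 * θ) e P Q) (rQ (2 * θ) e Q) S) := by
    refine (pos_mul_le _ _).trans (add_le_add_left ?_ _)
    refine (pos_mul_le _ _).trans ?_
    rw [pos_C, zero_add]
    exact (pos_pow_le _ _).trans (pos_den_le h.pos)
  omega

/-- terms with numerator zero -/
lemma num_split {e : ι → ℕ} {P Q : ι → ℝ[X]} {S : Finset ι} (p : ι → Prop) [DecidablePred p]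
    (h : ∀ j ∈ S, p j → P j = 0) :
    num e P Q S = den e Q (S.filter p) * num e P Q (S.filter fun j => ¬ p j) := by
  unfold num den
  rw [Finset.mul_sum, ← Finset.sum_filter_add_sum_filter_not S p]
  have h1 : ∑ j ∈ S.filter p, expand ℝ (e j) (P j) * ∏ i ∈ S.erase j, expand ℝ (e i) (Q i) = 0 := by
    refine Finset.sum_eq_zero fun j hj => ?_
    rw [Finset.mem_filter] at hj
    rw [h j hj.1 hj.2]; simp
  rw [h1, zero_add]
  refine Finset.sum_congr rfl fun j hj => ?_
  have hj' := Finset.mem_filter.1 hj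
  have h2 : ∏ i ∈ S.erase j, expand ℝ (e i) (Q i) =
      (∏ i ∈ S.filter p, expand ℝ (e i) (Q i)) *
        ∏ i ∈ (S.filter fun j => ¬ p j).erase j, expand ℝ (e i) (Q i) := by
    rw [← Finset.prod_filter_mul_prod_filter_not (S.erase j) p]
    congr 1
    · refine Finset.prod_congr ?_ fun _ _ => rfl
      ext i
      simp only [Finset.mem_filter, Finset.mem_erase]
      constructor
      · rintro ⟨⟨_, h3⟩, h4⟩; exact ⟨h3, h4⟩
      · rintro ⟨h3, h4⟩
        refine ⟨⟨?_, h3⟩, h4⟩
        rintro rfl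
        exact hj'.2 h4
    · refine Finset.prod_congr ?_ fun _ _ => rfl
      ext i
      simp only [Finset.mem_filter, Finset.mem_erase]
      tauto
  rw [h2]
  ring

lemma tdeg_split (Q : ι → ℝ[X]) (S : Finset ι) (p : ι → Prop) [DecidablePred p] :
    tdeg Q S = tdeg Q (S.filter p) + tdeg Q (S.filter fun j => ¬ p j) := by
  unfold tdeg
  rw [Finset.sum_filter_add_sum_filter_not]

/-- drop the terms which are real on the ray -/
lemma pos_rot_split {e : ι → ℕ} {P Q : ι → ℝ[X]} {S : Finset ι} (h : Proper e P Q S) (θ : ℝ)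
    (p : ι → Prop) [DecidablePred p] (hp : ∀ j ∈ S, p j → e j * θ = Real.pi) :
    pos (num e (rP θ e P Q) (rQ θ e Q) S) ≤ 2 * tdeg Q (S.filter p) +
      pos (num e (rP θ e P Q) (rQ θ e Q) (S.filter fun j => ¬ p j)) := by
  rw [num_split (P := rP θ e P Q) p fun j hj hpj => rotP_eq_zero_of_pi (hp j hj hpj) _ _]
  refine (pos_mul_le _ _).trans (add_le_add_left ?_ _)
  have h1 : Proper e P Q (S.filter p) := h.mono (Finset.filter_subset _ _)
  refine (pos_den_le h1.pos).trans ?_
  have := tdeg_rot h1.ne θ e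
  unfold tdeg at this ⊢
  rw [this]

/-- **Few different exponents.** -/
theorem pos_num_le_two_pow (D : ℕ) : ∀ (e : ι → ℕ) (P Q : ι → ℝ[X]) (S : Finset ι),
    Proper e P Q S → (S.image e).card ≤ D →
    pos (num e P Q S) ≤ (2 ^ (D + 1) - 1) * tdeg Q S + D := by
  induction D with
  | zero =>
    intro e P Q S h hD
    have : S = ∅ := by
      have := Finset.card_eq_zero.1 (Nat.le_zero.1 hD)
      exact Finset.image_eq_empty.1 this
    subst this
    simp [num, pos_zero]
  | succ D ih =>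
    intro e P Q S h hD
    rcases S.eq_empty_or_nonempty with rfl | hne
    · simp [num, pos_zero]
    obtain ⟨j0, hj0, hmax⟩ := Finset.exists_max_image S e hne
    have hd0 := h.pos j0 hj0
    have hpow : 2 ^ (D + 1 + 1) = 2 * 2 ^ (D + 1) := by ring
    have hpow1 : 2 ≤ 2 ^ (D + 1) := by
      have := Nat.one_le_two_pow (n := D); rw [pow_succ]; omega
    rcases Nat.lt_or_ge 1 (e j0) with h1 | h1
    · -- the largest exponent is at least two
      set θ : ℝ := Real.pi / e j0 with hθ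
      have hp := Real.pi_pos
      have hej : (1 : ℝ) < e j0 := by exact_mod_cast h1
      have h0 : 0 < θ := div_pos hp (by linarith)
      have hπ : θ < Real.pi := by
        rw [hθ, div_lt_iff₀ (by linarith)]
        nlinarith
      have hle : ∀ j ∈ S, e j * θ ≤ Real.pi := by
        intro j hj
        have : (e j : ℝ) ≤ e j0 := by exact_mod_cast hmax j hj
        rw [hθ, mul_div_assoc', div_le_iff₀ (by linarith)]
        nlinarith
      have s1 := step_im h h0 hπ hle
      have s2 := pos_rot_split h θ (fun j => e j = e j0) (by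
        intro j _ hj
        rw [hj, hθ]
        field_simp)
      have hS2 : Proper e P Q (S.filter fun j => ¬ e j = e j0) := h.mono (Finset.filter_subset _ _)
      have hcard : ((S.filter fun j => ¬ e j = e j0).image e).card ≤ D := by
        have h2 : (S.filter fun j => ¬ e j = e j0).image e ⊆ (S.image e).erase (e j0) := by
          intro d hd
          rw [Finset.mem_image] at hd
          obtain ⟨j, hj, rfl⟩ := hd
          rw [Finset.mem_filter] at hj
          exact Finset.mem_erase.2 ⟨hj.2, Finset.mem_image_of_mem _ hj.1⟩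
        have h3 := Finset.card_le_card h2
        rw [Finset.card_erase_of_mem (Finset.mem_image_of_mem _ hj0)] at h3
        omega
      have s3 := ih e _ _ _ (hS2.rot θ) hcard
      rw [tdeg_rot hS2.ne] at s3
      have s4 := tdeg_split Q S (fun j => e j = e j0)
      set T1 := tdeg Q (S.filter fun j => e j = e j0)
      set T2 := tdeg Q (S.filter fun j => ¬ e j = e j0)
      rw [s4]
      have e1 : (2 ^ (D + 1 + 1) - 1) * (T1 + T2) = (2 ^ (D + 1 + 1) - 1) * T1 +
        (2 ^ (D + 1 + 1) - 1) * T2 := by ring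
      have e2 : 3 * T1 ≤ (2 ^ (D + 1 + 1) - 1) * T1 := Nat.mul_le_mul_right _ (by omega)
      have e3 : (2 ^ (D + 1 + 1) - 1) * T2 = (2 ^ (D + 1) - 1) * (2 * T2) + T2 := by
        have : 2 ^ (D + 1 + 1) - 1 = (2 ^ (D + 1) - 1) * 2 + 1 := by omega
        rw [this]; ring
      rw [e1, e3]
      rw [s4] at s1
      omega
    · -- all exponents are one
      have hone : ∀ j ∈ S, e j = 1 := by
        intro j hj
        have := hmax j hj
        have := h.pos j hj
        omega
      have h2 := pos_le_natDegree (num e P Q S)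
      have h3 := natDegree_num_le (e := e) (P := P) (Q := Q) (S := S) h.deg
      have h4 : ∑ j ∈ S, (Q j).natDegree * e j = tdeg Q S := by
        unfold tdeg
        exact Finset.sum_congr rfl fun j hj => by rw [hone j hj, mul_one]
      have h5 : tdeg Q S ≤ (2 ^ (D + 1 + 1) - 1) * tdeg Q S :=
        Nat.le_mul_of_pos_left _ (by omega)
      omega

/-- **Exponents which are powers of two**, on a ray. -/
theorem pos_rot_tower (k : ℕ) : ∀ (e : ι → ℕ) (P Q : ι → ℝ[X]) (S : Finset ι),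
    Proper e P Q S → (∀ j ∈ S, ∃ l < k, e j = 2 ^ l) →
    pos (num e (rP (Real.pi / 2 ^ k) e P Q) (rQ (Real.pi / 2 ^ k) e Q) S) ≤
      k * (3 * tdeg Q S + 1) + 2 * tdeg Q S := by
  induction k with
  | zero =>
    intro e P Q S h hS
    have : S = ∅ := by
      rw [Finset.eq_empty_iff_forall_notMem]
      intro j hj
      obtain ⟨l, hl, _⟩ := hS j hj
      omega
    subst this
    simp [num, pos_zero]
  | succ k ih =>
    intro e P Q S h hS
    have hp := Real.pi_pos
    set θ : ℝ := Real.pi / 2 ^ (k + 1) with hθ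
    have h2k : (0 : ℝ) < 2 ^ (k + 1) := by positivity
    have h1k : (1 : ℝ) ≤ 2 ^ k := one_le_pow₀ (by norm_num)
    have h0 : 0 < θ := div_pos hp h2k
    have h2θ : 2 * θ = Real.pi / 2 ^ k := by
      rw [hθ, pow_succ]; field_simp
    have hπ : θ < Real.pi := by
      rw [hθ, div_lt_iff₀ h2k, pow_succ]
      nlinarith
    have hle : ∀ j ∈ S, e j * θ ≤ Real.pi := by
      intro j hj
      obtain ⟨l, hl, hl'⟩ := hS j hj
      rw [hl', hθ, mul_div_assoc', div_le_iff₀ h2k]
      push_cast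
      have : (2 : ℝ) ^ l ≤ 2 ^ (k + 1) := pow_le_pow_right₀ (by norm_num) (by omega)
      nlinarith
    have s1 := step_re h h0 hπ hle
    rw [h2θ] at s1
    have s2 := pos_rot_split h (Real.pi / 2 ^ k) (fun j => e j = 2 ^ k) (by
      intro j _ hj
      rw [hj]
      push_cast
      field_simp)
    have hS2 : Proper e P Q (S.filter fun j => ¬ e j = 2 ^ k) := h.mono (Finset.filter_subset _ _)
    have s3 := ih e P Q _ hS2 (by
      intro j hj
      rw [Finset.mem_filter] at hj
      obtain ⟨l, hl, hl'⟩ := hS j hj.1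
      refine ⟨l, ?_, hl'⟩
      rcases Nat.lt_succ_iff_lt_or_eq.1 hl with h3 | h3
      · exact h3
      · subst h3
        exact absurd hl' hj.2)
    have s4 := tdeg_split Q S (fun j => e j = 2 ^ k)
    set T1 := tdeg Q (S.filter fun j => e j = 2 ^ k)
    set T2 := tdeg Q (S.filter fun j => ¬ e j = 2 ^ k)
    have e1 : k * (3 * T2 + 1) ≤ k * (3 * tdeg Q S + 1) := Nat.mul_le_mul_left _ (by omega)
    have e2 : (k + 1) * (3 * tdeg Q S + 1) = k * (3 * tdeg Q S + 1) + (3 * tdeg Q S + 1) := by ring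
    rw [e2]
    omega

/-- **Exponents which are powers of two.** -/
theorem pos_num_le_tower (L : ℕ) (e : ι → ℕ) (P Q : ι → ℝ[X]) (S : Finset ι)
    (h : Proper e P Q S) (hS : ∀ j ∈ S, ∃ l ≤ L, e j = 2 ^ l) :
    pos (num e P Q S) ≤ (L + 2) * (3 * tdeg Q S + 1) := by
  have hp := Real.pi_pos
  set θ : ℝ := Real.pi / 2 ^ (L + 1) with hθ
  have h2k : (0 : ℝ) < 2 ^ (L + 1) := by positivity
  have h1k : (1 : ℝ) ≤ 2 ^ L := one_le_pow₀ (by norm_num)
  have h0 : 0 < θ := div_pos hp h2k
  have hπ : θ < Real.pi := by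
    rw [hθ, div_lt_iff₀ h2k, pow_succ]
    nlinarith
  have hle : ∀ j ∈ S, e j * θ ≤ Real.pi := by
    intro j hj
    obtain ⟨l, hl, hl'⟩ := hS j hj
    rw [hl', hθ, mul_div_assoc', div_le_iff₀ h2k]
    push_cast
    have : (2 : ℝ) ^ l ≤ 2 ^ (L + 1) := pow_le_pow_right₀ (by norm_num) (by omega)
    nlinarith
  have s1 := step_im h h0 hπ hle
  have s2 := pos_rot_tower (L + 1) e P Q S h (fun j hj => by
    obtain ⟨l, hl, hl'⟩ := hS j hj
    exact ⟨l, by omega, hl'⟩)
  rw [← hθ] at s2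
  have e2 : (L + 2) * (3 * tdeg Q S + 1) = (L + 1) * (3 * tdeg Q S + 1) +
    (3 * tdeg Q S + 1) := by ring
  rw [e2]
  omega

end

end Pool.Agent.T9h48
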