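import Pool.Agent.T9h48.Count

/-!
# Sums of two products

`f = a ∏ g_j ^ α_j + b ∏ g_j ^ β_j` with `g_j = G_j (x ^ e_j)`: reduction to the zeros of the
logarithmic derivative of the quotient of the two products.
-/

open Polynomial Filter Topology

set_option linter.unusedSectionVars false

namespace Pool.Agent.T9h48

noncomputable section

variable {ι : Type*} [DecidableEq ι]

/-- a version of Rolle's theorem with exceptional points -/
lemma rolle_count {f V M N : ℝ[X]} (hM0 : M ≠ 0) (hV : ∀ t : ℝ, M.eval t ≠ 0 → V.eval t ≠ 0)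
    (hN : ∀ t : ℝ, 0 < t → M.eval t ≠ 0 →
      ((derivative f * V - f * derivative V).eval t = 0 ↔ N.eval t = 0)) :
    pos f ≤ 2 * pos M + pos N + 1 := by
  classical
  by_cases hf : f = 0
  · subst hf; rw [pos_zero]; omega
  set Z : ℝ[X] → Finset ℝ := fun G => G.roots.toFinset.filter (fun y => 0 < y) with hZ
  have hmem : ∀ (G : ℝ[X]) (y : ℝ), y ∈ Z G ↔ G ≠ 0 ∧ G.eval y = 0 ∧ 0 < y := by
    intro G y
    rw [hZ]
    simp only [Finset.mem_filter, Multiset.mem_toFinset, mem_roots', IsRoot.def, and_assoc]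
  set s : Finset ℝ := (Z f).filter (fun y => M.eval y ≠ 0) with hs
  have h1 : s.card ≤ (Z M ∪ Z N).card + 1 := by
    apply Finset.card_le_of_interleaved
    intro x hx y hy hxy _
    rw [hs, Finset.mem_filter, hmem] at hx hy
    obtain ⟨⟨_, hfx, hx0⟩, hMx⟩ := hx
    obtain ⟨⟨_, hfy, hy0⟩, hMy⟩ := hy
    by_cases hex : ∃ z, x < z ∧ z < y ∧ M.eval z = 0
    · obtain ⟨z, hz1, hz2, hz3⟩ := hex
      exact ⟨z, Finset.mem_union_left _ ((hmem _ _).2 ⟨hM0, hz3, by linarith⟩), hz1, hz2⟩
    push Not at hex
    have hMne : ∀ t, x ≤ t → t ≤ y → M.eval t ≠ 0 := by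
      intro t ht1 ht2
      rcases eq_or_lt_of_le ht1 with rfl | ht1'
      · exact hMx
      rcases eq_or_lt_of_le ht2 with rfl | ht2'
      · exact hMy
      exact hex t ht1' ht2'
    have hder : ∀ t, x ≤ t → t ≤ y → HasDerivAt (fun t => f.eval t / V.eval t)
        ((derivative f * V - f * derivative V).eval t / (V.eval t) ^ 2) t := by
      intro t ht1 ht2
      have h := (f.hasDerivAt t).div (V.hasDerivAt t) (hV t (hMne t ht1 ht2))
      rw [eval_sub, eval_mul, eval_mul]
      exact h
    have hcont : ContinuousOn (fun t => f.eval t / V.eval t) (Set.Icc x y) := fun t ht =>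
      (hder t ht.1 ht.2).continuousAt.continuousWithinAt
    by_cases hN0 : N = 0
    · exfalso
      have hzero : ∀ t ∈ Set.Ioo x y, f.eval t = 0 := by
        intro t ht
        obtain ⟨c, hc, hc2⟩ := exists_hasDerivAt_eq_slope (fun t => f.eval t / V.eval t)
          (fun t => (derivative f * V - f * derivative V).eval t / (V.eval t) ^ 2) ht.1
          (hcont.mono (Set.Icc_subset_Icc_right ht.2.le))
          (fun u hu => hder u hu.1.le (hu.2.le.trans ht.2.le))
        have h3 : (derivative f * V - f * derivative V).eval c = 0 := by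
          rw [hN c (by linarith [hc.1]) (hMne c hc.1.le (hc.2.le.trans ht.2.le)), hN0, eval_zero]
        rw [h3, zero_div, hfx, zero_div, sub_zero] at hc2
        have h4 : t - x ≠ 0 := by linarith [ht.1]
        have h5 := hV t (hMne t ht.1.le ht.2.le)
        rw [eq_comm, div_eq_zero_iff] at hc2
        rcases hc2 with h6 | h6
        · rcases div_eq_zero_iff.1 h6 with h7 | h7
          · exact h7
          · exact absurd h7 h5
        · exact absurd h6 h4
      have hinf : Set.Infinite {t : ℝ | f.IsRoot t} :=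
        (Set.Ioo_infinite hxy).mono fun t ht => hzero t ht
      exact hf (Polynomial.eq_zero_of_infinite_isRoot f hinf)
    · obtain ⟨c, hc, hc2⟩ := exists_hasDerivAt_eq_zero hxy hcont
        (by simp only [hfx, hfy, zero_div]) (fun t ht => hder t ht.1.le ht.2.le)
      have hMc := hMne c hc.1.le hc.2.le
      have hVc := hV c hMc
      rw [div_eq_zero_iff] at hc2
      have h3 : (derivative f * V - f * derivative V).eval c = 0 := by
        rcases hc2 with h | h
        · exact h
        · exact absurd h (pow_ne_zero 2 hVc)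
      rw [hN c (by linarith [hc.1]) hMc] at h3
      exact ⟨c, Finset.mem_union_right _ ((hmem _ _).2 ⟨hN0, h3, by linarith [hc.1]⟩), hc.1, hc.2⟩
  have h2 : Z f ⊆ s ∪ Z M := by
    intro y hy
    rw [Finset.mem_union, hs, Finset.mem_filter]
    by_cases h : M.eval y = 0
    · right
      rw [hmem] at hy ⊢
      exact ⟨hM0, h, hy.2.2⟩
    · left; exact ⟨hy, h⟩
  have h3 := Finset.card_le_card h2
  have h4 := Finset.card_union_le s (Z M)
  have h5 := Finset.card_union_le (Z M) (Z N)
  have e1 : pos f = (Z f).card := rfl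
  have e2 : pos M = (Z M).card := rfl
  have e3 : pos N = (Z N).card := rfl
  omega

/-! ### the logarithmic derivative -/

/-- the numerators of the logarithmic derivative; `G = X ^ m * K` -/
def ldP (e : ι → ℕ) (c : ι → ℝ) (m : ι → ℕ) (K : ι → ℝ[X]) : ι → ℝ[X] := fun j =>
  C (c j * e j) * (C (m j : ℝ) * K j + X * derivative (K j))

lemma den_insert {e : ι → ℕ} {Q : ι → ℝ[X]} {S : Finset ι} {a : ι} (ha : a ∉ S) :
    den e Q (insert a S) = expand ℝ (e a) (Q a) * den e Q S := by
  unfold den; rw [Finset.prod_insert ha]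

lemma num_insert {e : ι → ℕ} {P Q : ι → ℝ[X]} {S : Finset ι} {a : ι} (ha : a ∉ S) :
    num e P Q (insert a S) = expand ℝ (e a) (P a) * den e Q S +
      expand ℝ (e a) (Q a) * num e P Q S := by
  unfold num den
  rw [Finset.sum_insert ha, Finset.erase_insert ha, Finset.mul_sum]
  congr 1
  refine Finset.sum_congr rfl fun j hj => ?_
  have hja : j ≠ a := by rintro rfl; exact ha hj
  rw [Finset.erase_insert_of_ne hja.symm, Finset.prod_insert]
  · ring
  · intro h; exact ha (Finset.mem_of_mem_erase h)

/-- the product `∏ (G_j (x ^ e_j)) ^ α_j` -/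
def prd (e : ι → ℕ) (G : ι → ℝ[X]) (α : ι → ℕ) (S : Finset ι) : ℝ[X] :=
  ∏ j ∈ S, (expand ℝ (e j) (G j)) ^ α j

lemma prd_insert {e : ι → ℕ} {G : ι → ℝ[X]} {α : ι → ℕ} {S : Finset ι} {a : ι} (ha : a ∉ S) :
    prd e G α (insert a S) = (expand ℝ (e a) (G a)) ^ α a * prd e G α S := by
  unfold prd; rw [Finset.prod_insert ha]

lemma X_mul_derivative_expand (d : ℕ) (G : ℝ[X]) :
    X * derivative (expand ℝ d G) = C (d : ℝ) * expand ℝ d (X * derivative G) := by
  rw [derivative_expand, map_mul, expand_X]
  rcases Nat.eq_zero_or_pos d with rfl | hd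
  · simp
  have : (X : ℝ[X]) ^ d = X * X ^ (d - 1) := by
    rw [← pow_succ']; congr 1; omega
  rw [this]
  simp only [C_eq_natCast]
  ring

lemma ld_identity {e : ι → ℕ} {G K : ι → ℝ[X]} {m α β : ι → ℕ} {S : Finset ι}
    (he : ∀ j ∈ S, 0 < e j) (hG : ∀ j ∈ S, G j = X ^ m j * K j) (hK : ∀ j ∈ S, K j ≠ 0) :
    X * (derivative (prd e G α S) * prd e G β S - prd e G α S * derivative (prd e G β S)) *
      den e K S = prd e G α S * prd e G β S *
        num e (ldP e (fun j => (α j : ℝ) - β j) m K) K S := by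
  induction S using Finset.induction_on with
  | empty => simp [prd, den, num]
  | insert a S ha ih =>
    have hS' : ∀ j ∈ S, j ∈ insert a S := fun j hj => Finset.mem_insert_of_mem hj
    have ih' := ih (fun j hj => he j (hS' j hj)) (fun j hj => hG j (hS' j hj))
      (fun j hj => hK j (hS' j hj))
    have ha' := Finset.mem_insert_self a S
    have hKa := hK a ha'
    have hGa := hG a ha'
    have hea := he a ha'
    rw [den_insert ha, num_insert ha, prd_insert ha, prd_insert ha]
    set g := expand ℝ (e a) (G a) with hg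
    set k := expand ℝ (e a) (K a) with hk
    set U := prd e G α S
    set V := prd e G β S
    set D := den e K S
    set N := num e (ldP e (fun j => (α j : ℝ) - β j) m K) K S
    set p := expand ℝ (e a) (ldP e (fun j => (α j : ℝ) - β j) m K a) with hp
    have hg0 : g ≠ 0 := by
      rw [hg, Polynomial.expand_ne_zero hea, hGa]
      exact mul_ne_zero (pow_ne_zero _ X_ne_zero) hKa
    -- relation between the logarithmic derivative and `p / k`
    have hrel : C ((α a : ℝ) - β a) * (k * (X * derivative g)) = g * p := by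
      rw [hg, X_mul_derivative_expand, hp, hk, hGa]
      unfold ldP
      have h1 : X * derivative (X ^ m a * K a) = X ^ m a * (C (m a : ℝ) * K a +
          X * derivative (K a)) := by
        rw [derivative_mul, derivative_X_pow]
        rcases Nat.eq_zero_or_pos (m a) with h | h
        · rw [h]; simp
        · have : (X : ℝ[X]) ^ m a = X * X ^ (m a - 1) := by
            rw [← pow_succ']; congr 1; omega
          simp only [this, C_eq_natCast]
          ring
      rw [h1]
      simp only [map_mul, map_add, expand_C, map_pow]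
      ring
    have hda : ∀ n : ℕ, X * derivative (g ^ n) * g = C (n : ℝ) * g ^ n * (X * derivative g) := by
      intro n
      rw [derivative_pow]
      rcases Nat.eq_zero_or_pos n with rfl | h
      · simp
      · have : g ^ n = g * g ^ (n - 1) := by
          rw [← pow_succ']; congr 1; omega
        rw [this]; ring
    have hα := hda (α a)
    have hβ := hda (β a)
    apply mul_left_cancel₀ hg0
    rw [derivative_mul, derivative_mul]
    have hC : C ((α a : ℝ) - β a) = C (α a : ℝ) - C (β a : ℝ) := C_sub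
    rw [hC] at hrel
    linear_combination (g ^ α a * g ^ β a * g * k) * ih' +
      (U * V * g ^ β a * k * D) * hα - (U * V * g ^ α a * k * D) * hβ +
      (U * V * g ^ α a * g ^ β a * D) * hrel

/-! ### counting -/

lemma pos_prd_le {e : ι → ℕ} (G : ι → ℝ[X]) (α : ι → ℕ) {S : Finset ι} (he : ∀ j ∈ S, 0 < e j) :
    pos (prd e G α S) ≤ tdeg G S := by
  induction S using Finset.induction_on with
  | empty => simp [prd, pos_one]
  | insert a S ha ih =>
    rw [prd_insert ha]
    unfold tdeg
    rw [Finset.sum_insert ha]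
    refine (pos_mul_le _ _).trans (add_le_add ?_
      (ih fun j hj => he j (Finset.mem_insert_of_mem hj)))
    exact (pos_pow_le _ _).trans ((pos_expand_le (he a (Finset.mem_insert_self _ _)) _).trans
      (pos_le_natDegree _))

lemma ldP_natDegree (e : ι → ℕ) (c : ι → ℝ) (m : ι → ℕ) (K : ι → ℝ[X]) (j : ι) :
    (ldP e c m K j).natDegree ≤ (K j).natDegree := by
  unfold ldP
  refine (natDegree_C_mul_le _ _).trans ?_
  refine (natDegree_add_le _ _).trans (max_le (natDegree_C_mul_le _ _) ?_)
  by_cases h : (K j).natDegree = 0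
  · have : K j = C ((K j).coeff 0) := eq_C_of_natDegree_eq_zero h
    rw [this]; simp
  · refine natDegree_mul_le.trans ?_
    have := natDegree_derivative_lt h
    rw [natDegree_X]; omega

lemma exists_factor {G : ℝ[X]} (hG : G ≠ 0) :
    ∃ (m : ℕ) (K : ℝ[X]), G = X ^ m * K ∧ K.eval 0 ≠ 0 ∧ K.natDegree ≤ G.natDegree := by
  obtain ⟨K, hK, hK'⟩ := exists_eq_pow_rootMultiplicity_mul_and_not_dvd G hG 0
  rw [C_0, sub_zero] at hK hK'
  refine ⟨_, K, hK, ?_, ?_⟩
  · intro h
    apply hK'
    rw [X_dvd_iff, coeff_zero_eq_eval_zero]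
    exact h
  · have hK0 : K ≠ 0 := by rintro rfl; simp at hK'
    conv_rhs => rw [hK]
    rw [natDegree_mul (pow_ne_zero _ X_ne_zero) hK0]
    omega

/-- the case in which all polynomials are different from zero -/
lemma pos_two_le_aux {e : ι → ℕ} {G : ι → ℝ[X]} {α β : ι → ℕ} {S : Finset ι} {a b : ℝ}
    (he : ∀ j ∈ S, 0 < e j) (hG : ∀ j ∈ S, G j ≠ 0) (ha : a ≠ 0) (Bd : ℕ → ℕ)
    (hmono : Monotone Bd)
    (hB : ∀ P K : ι → ℝ[X], Proper e P K S → pos (num e P K S) ≤ Bd (tdeg K S)) :
    pos (C a * prd e G α S + C b * prd e G β S) ≤ 2 * tdeg G S + Bd (tdeg G S) + 1 := by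
  classical
  have hex : ∀ j : ι, ∃ (m : ℕ) (K : ℝ[X]), j ∈ S → G j = X ^ m * K ∧ K.eval 0 ≠ 0 ∧
      K.natDegree ≤ (G j).natDegree := by
    intro j
    by_cases hj : j ∈ S
    · obtain ⟨m, K, h⟩ := exists_factor (hG j hj)
      exact ⟨m, K, fun _ => h⟩
    · exact ⟨0, 0, fun h => absurd h hj⟩
  choose m K hmK using hex
  have hK0 : ∀ j ∈ S, K j ≠ 0 := fun j hj => ne_zero_of_eval (hmK j hj).2.1
  set N := num e (ldP e (fun j => (α j : ℝ) - β j) m K) K S with hN
  have hprop : Proper e (ldP e (fun j => (α j : ℝ) - β j) m K) K S :=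
    ⟨he, fun j _ => ldP_natDegree _ _ _ _ _, fun j hj => (hmK j hj).2.1⟩
  have hNb := hB _ _ hprop
  have htd : tdeg K S ≤ tdeg G S := Finset.sum_le_sum fun j hj => (hmK j hj).2.2
  have hNb' : pos N ≤ Bd (tdeg G S) := hNb.trans (hmono htd)
  set M := prd e G (fun _ => 1) S with hM
  have hMb : pos M ≤ tdeg G S := pos_prd_le G _ he
  have hM0 : M ≠ 0 := by
    rw [hM]; unfold prd
    rw [Finset.prod_ne_zero_iff]
    intro j hj
    exact pow_ne_zero _ ((Polynomial.expand_ne_zero (he j hj)).2 (hG j hj))
  have hMe : ∀ t : ℝ, M.eval t ≠ 0 → ∀ j ∈ S, (expand ℝ (e j) (G j)).eval t ≠ 0 := by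
    intro t ht j hj
    rw [hM] at ht; unfold prd at ht
    rw [eval_prod, Finset.prod_ne_zero_iff] at ht
    have := ht j hj
    simpa using this
  have hU : ∀ (γ : ι → ℕ) (t : ℝ), M.eval t ≠ 0 → (prd e G γ S).eval t ≠ 0 := by
    intro γ t ht
    unfold prd
    rw [eval_prod, Finset.prod_ne_zero_iff]
    intro j hj
    rw [eval_pow]
    exact pow_ne_zero _ (hMe t ht j hj)
  have hD : ∀ t : ℝ, M.eval t ≠ 0 → (den e K S).eval t ≠ 0 := by
    intro t ht
    unfold den
    rw [eval_prod, Finset.prod_ne_zero_iff]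
    intro j hj h
    apply hMe t ht j hj
    rw [expand_eval] at h ⊢
    rw [(hmK j hj).1, eval_mul, h, mul_zero]
  have hid := ld_identity (α := α) (β := β) he (fun j hj => (hmK j hj).1) hK0
  have hmain := rolle_count (f := C a * prd e G α S + C b * prd e G β S) (V := prd e G β S)
    (M := M) (N := N) hM0 (hU β) (by
      intro t ht0 ht
      have h1 : derivative (C a * prd e G α S + C b * prd e G β S) * prd e G β S -
          (C a * prd e G α S + C b * prd e G β S) * derivative (prd e G β S) =
          C a * (derivative (prd e G α S) * prd e G β S -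
            prd e G α S * derivative (prd e G β S)) := by
        rw [derivative_add, derivative_C_mul, derivative_C_mul]; ring
      rw [h1]
      have h2 := congrArg (eval t) hid
      rw [eval_mul, eval_mul, eval_mul, eval_mul, eval_X] at h2
      rw [eval_mul, eval_C]
      have h3 := hU α t ht
      have h4 := hU β t ht
      have h5 := hD t ht
      constructor
      · intro h
        rcases mul_eq_zero.1 h with h6 | h6
        · exact absurd h6 ha
        · rw [h6, mul_zero, zero_mul] at h2
          rcases mul_eq_zero.1 h2.symm with h7 | h7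
          · exact absurd h7 (mul_ne_zero h3 h4)
          · exact h7
      · intro h
        rw [← hN, h, mul_zero] at h2
        rcases mul_eq_zero.1 h2 with h7 | h7
        · rcases mul_eq_zero.1 h7 with h8 | h8
          · exact absurd h8 ht0.ne'
          · rw [h8, mul_zero]
        · exact absurd h7 h5)
  omega

theorem pos_two_le {e : ι → ℕ} {G : ι → ℝ[X]} {α β : ι → ℕ} {S : Finset ι} {a b : ℝ}
    (he : ∀ j ∈ S, 0 < e j) (Bd : ℕ → ℕ) (hmono : Monotone Bd)
    (hB : ∀ S' ⊆ S, ∀ P K : ι → ℝ[X], Proper e P K S' → pos (num e P K S') ≤ Bd (tdeg K S')) :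
    pos (C a * prd e G α S + C b * prd e G β S) ≤ 2 * tdeg G S + Bd (tdeg G S) + 1 := by
  classical
  have hone : ∀ (c : ℝ) (γ : ι → ℕ), pos (C c * prd e G γ S) ≤ tdeg G S := by
    intro c γ
    refine (pos_mul_le _ _).trans ?_
    rw [pos_C, zero_add]
    exact pos_prd_le G γ he
  by_cases h1 : a = 0 ∨ prd e G α S = 0
  · have : C a * prd e G α S = 0 := by
      rcases h1 with h | h <;> rw [h] <;> simp
    rw [this, zero_add]
    have := hone b β
    omega
  by_cases h2 : prd e G β S = 0
  · rw [h2, mul_zero, add_zero]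
    have := hone a α
    omega
  push Not at h1
  set S' := S.filter (fun j => G j ≠ 0) with hS'
  have hsub : S' ⊆ S := Finset.filter_subset _ _
  have hprd : ∀ γ : ι → ℕ, prd e G γ S ≠ 0 → prd e G γ S = prd e G γ S' := by
    intro γ hγ
    symm
    unfold prd
    refine Finset.prod_subset hsub ?_
    intro j hj hj'
    have hGj : G j = 0 := by
      by_contra h
      exact hj' (Finset.mem_filter.2 ⟨hj, h⟩)
    unfold prd at hγ
    rw [Finset.prod_ne_zero_iff] at hγ
    have h3 := hγ j hj
    rw [hGj, map_zero] at h3 ⊢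
    have : γ j = 0 := by
      by_contra h
      exact h3 (zero_pow h)
    rw [this, pow_zero]
  rw [hprd α h1.2, hprd β h2]
  have h3 := pos_two_le_aux (α := α) (β := β) (a := a) (b := b) (S := S') (G := G)
    (fun j hj => he j (hsub hj))
    (fun j hj => (Finset.mem_filter.1 hj).2) h1.1 Bd hmono (hB S' hsub)
  have h4 : tdeg G S' ≤ tdeg G S := Finset.sum_le_sum_of_subset hsub
  have h5 := hmono h4
  omega

/-! ### all real roots -/

lemma card_roots_le (f : ℝ[X]) : f.roots.toFinset.card ≤ pos f + pos (f.comp (-X)) + 1 := by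
  classical
  by_cases hf : f = 0
  · subst hf; simp
  have hf' : f.comp (-X) ≠ 0 := by
    intro h
    apply hf
    have := congrArg (fun q => q.comp (-X)) h
    simpa [comp_assoc] using this
  have h1 : f.roots.toFinset ⊆ (f.roots.toFinset.filter (fun y => 0 < y)) ∪
      (((f.comp (-X)).roots.toFinset.filter (fun y => 0 < y)).image (fun y => -y)) ∪ {0} := by
    intro y hy
    simp only [Finset.mem_union, Finset.mem_filter, Finset.mem_image, Finset.mem_singleton,
      Multiset.mem_toFinset, mem_roots', IsRoot.def] at hy ⊢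
    rcases lt_trichotomy y 0 with h | h | h
    · left; right
      refine ⟨-y, ⟨⟨hf', ?_⟩, by linarith⟩, by ring⟩
      rw [eval_comp]; simpa using hy.2
    · right; exact h
    · left; left; exact ⟨hy, h⟩
  refine (Finset.card_le_card h1).trans ?_
  refine (Finset.card_union_le _ _).trans ?_
  rw [Finset.card_singleton]
  refine Nat.add_le_add_right ((Finset.card_union_le _ _).trans ?_) 1
  exact Nat.add_le_add le_rfl Finset.card_image_le

/-- the polynomials of the reflected family -/
def refl (e : ι → ℕ) (G : ι → ℝ[X]) : ι → ℝ[X] := fun j => (G j).comp (C ((-1 : ℝ) ^ e j) * X)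

lemma expand_comp_neg (d : ℕ) (G : ℝ[X]) :
    (expand ℝ d G).comp (-X) = expand ℝ d (G.comp (C ((-1 : ℝ) ^ d) * X)) := by
  rw [expand_eq_comp_X_pow, expand_eq_comp_X_pow, comp_assoc, comp_assoc]
  congr 1
  simp only [pow_comp, X_comp, mul_comp, C_comp]
  rw [neg_pow]
  simp

lemma prd_comp_neg (e : ι → ℕ) (G : ι → ℝ[X]) (γ : ι → ℕ) (S : Finset ι) :
    (prd e G γ S).comp (-X) = prd e (refl e G) γ S := by
  unfold prd
  rw [prod_comp]
  refine Finset.prod_congr rfl fun j _ => ?_
  rw [pow_comp, expand_comp_neg]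
  rfl

lemma tdeg_refl_le (e : ι → ℕ) (G : ι → ℝ[X]) (S : Finset ι) : tdeg (refl e G) S ≤ tdeg G S := by
  unfold tdeg refl
  refine Finset.sum_le_sum fun j _ => ?_
  refine natDegree_comp_le.trans ?_
  have : (C ((-1 : ℝ) ^ e j) * X).natDegree ≤ 1 :=
    (natDegree_C_mul_le _ _).trans natDegree_X_le
  exact (Nat.mul_le_mul_left _ this).trans (by rw [mul_one])

theorem card_two_le {e : ι → ℕ} {G : ι → ℝ[X]} {α β : ι → ℕ} {S : Finset ι} {a b : ℝ}
    (he : ∀ j ∈ S, 0 < e j) (Bd : ℕ → ℕ) (hmono : Monotone Bd)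
    (hB : ∀ S' ⊆ S, ∀ P K : ι → ℝ[X], Proper e P K S' → pos (num e P K S') ≤ Bd (tdeg K S')) :
    (C a * prd e G α S + C b * prd e G β S).roots.toFinset.card ≤
      2 * (2 * tdeg G S + Bd (tdeg G S) + 1) + 1 := by
  have h1 := card_roots_le (C a * prd e G α S + C b * prd e G β S)
  have h2 := pos_two_le (G := G) (α := α) (β := β) (a := a) (b := b) he Bd hmono hB
  have h3 : (C a * prd e G α S + C b * prd e G β S).comp (-X) =
      C a * prd e (refl e G) α S + C b * prd e (refl e G) β S := by
    rw [add_comp, mul_comp, mul_comp, prd_comp_neg, prd_comp_neg, C_comp, C_comp]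
  rw [h3] at h1
  have h4 := pos_two_le (G := refl e G) (α := α) (β := β) (a := a) (b := b) he Bd hmono hB
  have h5 := tdeg_refl_le e G S
  have h6 := hmono h5
  omega

end

end Pool.Agent.T9h48
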