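import Pool.Agent.T9h48.Phase2
import Pool.Agent.T9h48.Two

/-!
# Zeros of a sparse polynomial plus a sum of rational functions of powers

`Adm`: admissible families, without conditions at zero and infinity.
-/

open Polynomial Complex Filter Topology

set_option linter.unusedSectionVars false

namespace Pool.Agent.T9h48

noncomputable section

variable {ι : Type*} [DecidableEq ι]

/-! ### the rule of signs for sparse polynomials -/

lemma X_mul_derivative_coeff (f : ℝ[X]) (n : ℕ) :
    (X * derivative f).coeff n = n * f.coeff n := by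
  rcases n with _ | n
  · simp
  · rw [coeff_X_mul, coeff_derivative]; push_cast; ring

lemma pos_le_support (n : ℕ) : ∀ f : ℝ[X], f.support.card ≤ n → pos f ≤ f.support.card - 1 := by
  classical
  induction n with
  | zero =>
    intro f hf
    have : f = 0 := by
      rw [← support_eq_empty, ← Finset.card_eq_zero]; omega
    subst this
    rw [pos_zero]; omega
  | succ n ih =>
    intro f hf
    by_cases hf0 : f = 0
    · subst hf0; rw [pos_zero]; omega
    have hne : f.support.Nonempty := by
      rw [Finset.nonempty_iff_ne_empty]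
      simpa using hf0
    obtain ⟨m, hm⟩ := hne
    set N : ℝ[X] := X * derivative f - C (m : ℝ) * f with hN
    have hcoeff : ∀ k, N.coeff k = ((k : ℝ) - m) * f.coeff k := by
      intro k
      rw [hN, coeff_sub, X_mul_derivative_coeff, coeff_C_mul]; ring
    have hsupp : N.support ⊆ f.support.erase m := by
      intro k hk
      rw [mem_support_iff, hcoeff] at hk
      rw [Finset.mem_erase, mem_support_iff]
      constructor
      · rintro rfl; simp at hk
      · intro h; rw [h] at hk; simp at hk
    have hcard : N.support.card ≤ f.support.card - 1 := by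
      have := Finset.card_le_card hsupp
      rwa [Finset.card_erase_of_mem hm] at this
    by_cases h1 : f.support.card = 1
    · -- a monomial has no positive root
      have hmono : f = monomial m (f.coeff m) := by
        rw [Finset.card_eq_one] at h1
        obtain ⟨a, ha⟩ := h1
        have hma : m = a := by rw [ha] at hm; simpa using hm
        ext k
        rw [coeff_monomial]
        split_ifs with h
        · rw [h]
        · by_contra h2
          have : k ∈ f.support := mem_support_iff.2 h2
          rw [ha, Finset.mem_singleton] at this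
          exact h (by rw [hma, this])
      rw [h1]
      have : pos f = 0 := by
        unfold pos
        rw [Finset.card_eq_zero, Finset.filter_eq_empty_iff]
        intro y hy hy0
        rw [Multiset.mem_toFinset, mem_roots', IsRoot.def, hmono, eval_monomial] at hy
        rcases mul_eq_zero.1 hy.2 with h | h
        · exact (mem_support_iff.1 hm) h
        · exact (pow_ne_zero m hy0.ne') h
      omega
    · have hroll := rolle_count (f := f) (V := X ^ m) (M := X) (N := N) X_ne_zero
        (by intro t ht; rw [eval_pow, eval_X] at *; exact pow_ne_zero _ ht)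
        (by
          intro t ht0 _
          have e1 : (derivative f * X ^ m - f * derivative (X ^ m)).eval t * t =
              t ^ m * N.eval t := by
            rw [hN, derivative_X_pow]
            simp only [eval_sub, eval_mul, eval_pow, eval_X, eval_C]
            rcases Nat.eq_zero_or_pos m with h | h
            · rw [h]; simp; ring
            · have : t ^ m = t ^ (m - 1) * t := by rw [← pow_succ]; congr 1; omega
              rw [this]; ring
          constructor
          · intro h
            rw [h, zero_mul] at e1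
            rcases mul_eq_zero.1 e1.symm with h2 | h2
            · exact absurd h2 (pow_ne_zero _ ht0.ne')
            · exact h2
          · intro h
            rw [h, mul_zero] at e1
            rcases mul_eq_zero.1 e1 with h2 | h2
            · exact h2
            · exact absurd h2 ht0.ne')
      have hX : pos (X : ℝ[X]) = 0 := by
        unfold pos
        rw [Finset.card_eq_zero, Finset.filter_eq_empty_iff]
        intro y hy hy0
        simp at hy
        exact hy0.ne' hy
      have h2 := ih N (by omega)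
      have h3 : 1 ≤ f.support.card := Finset.card_pos.2 ⟨m, hm⟩
      omega

lemma pos_le_support' (f : ℝ[X]) : pos f ≤ f.support.card - 1 := pos_le_support _ f le_rfl

lemma support_sinP_subset (φ : ℝ) (f : ℝ[X]) : (sinP φ f).support ⊆ f.support := by
  intro k hk
  rw [mem_support_iff, coeff_sinP] at hk
  rw [mem_support_iff]
  intro h; rw [h, zero_mul] at hk; exact hk rfl

/-! ### poles, zero included -/

lemma sec_X_pow_mul (θ : ℝ) (n : ℕ) {G : ℝ[X]} (hG : G ≠ 0) : sec θ (X ^ n * G) = sec θ G := by
  classical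
  rw [sec_mul θ (pow_ne_zero _ X_ne_zero) hG]
  have : sec θ (X ^ n : ℝ[X]) = 0 := by
    unfold sec croots
    rw [Polynomial.map_pow, map_X, roots_X_pow, Multiset.card_eq_zero, Multiset.filter_eq_nil]
    intro z hz h
    rw [Multiset.mem_nsmul, Multiset.mem_singleton] at hz
    exact h.1 hz.2
  omega

lemma nzc_X_pow_mul (n : ℕ) {G : ℝ[X]} (hG : G ≠ 0) : nzc (X ^ n * G) = nzc G := by
  classical
  rw [nzc_mul (pow_ne_zero _ X_ne_zero) hG]
  have : nzc (X ^ n : ℝ[X]) = 0 := by
    unfold nzc croots
    rw [Polynomial.map_pow, map_X, roots_X_pow, Multiset.card_eq_zero, Multiset.filter_eq_nil]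
    intro z hz h
    rw [Multiset.mem_nsmul, Multiset.mem_singleton] at hz
    exact h hz.2
  omega

/-- the roots in the sector plus the share of the zero roots -/
lemma sec_expand_le' {θ : ℝ} (h0 : 0 < θ) {d : ℕ} (hd : 0 < d) (hdθ : d * θ ≤ Real.pi)
    {G : ℝ[X]} (hG : G ≠ 0) :
    (sec θ (expand ℝ d G) : ℝ) +
      (((expand ℝ d G).natDegree : ℝ) - nzc (expand ℝ d G)) * (θ / Real.pi) ≤ G.natDegree := by
  have hp := Real.pi_pos
  obtain ⟨m, K, hGK, hK0, _⟩ := exists_factor hG
  have hK : K ≠ 0 := ne_zero_of_eval hK0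
  have hKe : expand ℝ d K ≠ 0 := (Polynomial.expand_ne_zero hd).2 hK
  have h1 : expand ℝ d G = X ^ (d * m) * expand ℝ d K := by
    rw [hGK, map_mul, map_pow, expand_X, ← pow_mul]
  have h2 : sec θ (expand ℝ d G) = sec θ (expand ℝ d K) := by rw [h1, sec_X_pow_mul _ _ hKe]
  have h3 : nzc (expand ℝ d G) = (expand ℝ d K).natDegree := by
    rw [h1, nzc_X_pow_mul _ hKe]
    apply nzc_eq
    rw [expand_eval, zero_pow hd.ne']
    exact hK0
  have h4 : (expand ℝ d G).natDegree = d * m + (expand ℝ d K).natDegree := by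
    rw [h1, natDegree_mul (pow_ne_zero _ X_ne_zero) hKe, natDegree_X_pow]
  have h5 : G.natDegree = m + K.natDegree := by
    rw [hGK, natDegree_mul (pow_ne_zero _ X_ne_zero) hK, natDegree_X_pow]
  have h6 : (sec θ (expand ℝ d K) : ℝ) ≤ K.natDegree := by
    exact_mod_cast sec_expand_le hd hdθ hK
  rw [h2, h3, h4, h5]
  push_cast
  have h7 : ((d : ℝ) * m + (expand ℝ d K).natDegree - (expand ℝ d K).natDegree) * (θ / Real.pi) =
      m * ((d * θ) / Real.pi) := by ring
  have h8 : (d * θ) / Real.pi ≤ 1 := by rw [div_le_one hp]; exact hdθ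
  have h9 : (0 : ℝ) ≤ m := Nat.cast_nonneg _
  rw [h7]
  nlinarith

lemma sec_den_le' {θ : ℝ} (h0 : 0 < θ) {e : ι → ℕ} {Q : ι → ℝ[X]} {S : Finset ι}
    (he : ∀ j ∈ S, 0 < e j) (hQ : ∀ j ∈ S, Q j ≠ 0) (hθ : ∀ j ∈ S, e j * θ ≤ Real.pi) :
    (sec θ (den e Q S) : ℝ) + (((den e Q S).natDegree : ℝ) - nzc (den e Q S)) * (θ / Real.pi) ≤
      tdeg Q S := by
  classical
  induction S using Finset.induction_on with
  | empty => simp [den, sec, nzc, croots, tdeg]
  | insert a S ha ih =>
    have ha' := Finset.mem_insert_self a S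
    have hS' : ∀ j ∈ S, j ∈ insert a S := fun j hj => Finset.mem_insert_of_mem hj
    have hd1 : expand ℝ (e a) (Q a) ≠ 0 := (Polynomial.expand_ne_zero (he a ha')).2 (hQ a ha')
    have hd2 : den e Q S ≠ 0 :=
      den_ne_zero (fun j hj => he j (hS' j hj)) (fun j hj => hQ j (hS' j hj))
    have h1 := sec_expand_le' h0 (he a ha') (hθ a ha') (hQ a ha')
    have h2 := ih (fun j hj => he j (hS' j hj)) (fun j hj => hQ j (hS' j hj))
          (fun j hj => hθ j (hS' j hj))
    have h3 : tdeg Q (insert a S) = (Q a).natDegree + tdeg Q S := by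
      unfold tdeg; rw [Finset.sum_insert ha]
    rw [den_insert ha, sec_mul θ hd1 hd2, nzc_mul hd1 hd2, natDegree_mul hd1 hd2, h3]
    push_cast
    linarith

/-! ### admissible families -/

/-- positive exponents, `Q j ≠ 0`, `deg P j ≤ deg Q j + p` -/
structure Adm (e : ι → ℕ) (P Q : ι → ℝ[X]) (S : Finset ι) (p : ℕ) : Prop where
  pos : ∀ j ∈ S, 0 < e j
  ne : ∀ j ∈ S, Q j ≠ 0
  deg : ∀ j ∈ S, (P j).natDegree ≤ (Q j).natDegree + p

lemma Adm.mono {e : ι → ℕ} {P Q : ι → ℝ[X]} {S T : Finset ι} {p : ℕ} (h : Adm e P Q S p)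
    (hT : T ⊆ S) : Adm e P Q T p :=
  ⟨fun j hj => h.pos j (hT hj), fun j hj => h.ne j (hT hj), fun j hj => h.deg j (hT hj)⟩

lemma natDegree_rotP_le' (φ : ℝ) {P Q : ℝ[X]} {p : ℕ} (hQ : Q ≠ 0)
    (h : P.natDegree ≤ Q.natDegree + p) :
    (rotP φ P Q).natDegree ≤ (rotQ φ Q).natDegree + p := by
  rw [natDegree_rotQ φ hQ]
  unfold rotP
  refine (natDegree_sub_le _ _).trans (max_le ?_ ?_)
  · refine natDegree_mul_le.trans ((add_le_add ((natDegree_sinP_le φ P).trans h)
      (natDegree_cosP_le φ Q)).trans ?_)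
    omega
  · refine natDegree_mul_le.trans ((add_le_add ((natDegree_cosP_le φ P).trans h)
      (natDegree_sinP_le φ Q)).trans ?_)
    omega

lemma Adm.rot {e : ι → ℕ} {P Q : ι → ℝ[X]} {S : Finset ι} {p : ℕ} (h : Adm e P Q S p) (θ : ℝ) :
    Adm e (rP θ e P Q) (rQ θ e Q) S p :=
  ⟨h.pos, fun j hj => rotQ_ne_zero _ (h.ne j hj),
    fun j hj => natDegree_rotP_le' _ (h.ne j hj) (h.deg j hj)⟩

/-- `f + ∑ (P j / Q j) (x ^ e j)` times the common denominator -/
def numF (f : ℝ[X]) (e : ι → ℕ) (P Q : ι → ℝ[X]) (S : Finset ι) : ℝ[X] :=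
  f * den e Q S + num e P Q S

lemma natDegree_numF_le {f : ℝ[X]} {e : ι → ℕ} {P Q : ι → ℝ[X]} {S : Finset ι} {p M : ℕ}
    (h : Adm e P Q S p) (hf : f.natDegree ≤ M) (hp : ∀ j ∈ S, p * e j ≤ M) :
    (numF f e P Q S).natDegree ≤ (den e Q S).natDegree + M := by
  classical
  unfold numF
  refine (natDegree_add_le _ _).trans (max_le ?_ ?_)
  · refine natDegree_mul_le.trans ?_
    omega
  · rw [natDegree_den h.pos h.ne]
    unfold num
    apply natDegree_sum_le_of_forall_le
    intro j hj
    refine (natDegree_mul_le).trans ?_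
    rw [← Finset.add_sum_erase S _ hj, natDegree_expand]
    have h1 : (∏ i ∈ S.erase j, expand ℝ (e i) (Q i)).natDegree ≤
        ∑ i ∈ S.erase j, (Q i).natDegree * e i :=
      (natDegree_prod_le _ _).trans (Finset.sum_le_sum fun i _ => (natDegree_expand _ _).le)
    have h2 : (P j).natDegree * e j ≤ (Q j).natDegree * e j + p * e j := by
      rw [← add_mul]; exact Nat.mul_le_mul_right _ (h.deg j hj)
    have h3 := hp j hj
    omega

lemma imF_identity (θ : ℝ) (f : ℝ[X]) (e : ι → ℕ) (P Q : ι → ℝ[X]) (S : Finset ι) (y : ℝ) :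
    (numF (sinP θ f) e (rP θ e P Q) (rQ θ e Q) S).eval y =
      (ev (numF f e P Q S) ((y : ℂ) * exp ((θ : ℂ) * I)) *
        starRingEnd ℂ (ev (den e Q S) ((y : ℂ) * exp ((θ : ℂ) * I)))).im := by
  unfold numF
  rw [eval_add, im_identity, ev_add, add_mul, add_im]
  congr 1
  rw [ev_mul, mul_assoc]
  have h1 : ev (den e Q S) ((y : ℂ) * exp ((θ : ℂ) * I)) *
      starRingEnd ℂ (ev (den e Q S) ((y : ℂ) * exp ((θ : ℂ) * I))) =
      (((den e (rQ θ e Q) S).eval y : ℝ) : ℂ) := by
    rw [ev_den, map_prod, ← Finset.prod_mul_distrib]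
    unfold den
    rw [eval_prod, ofReal_prod]
    refine Finset.prod_congr rfl fun i _ => ?_
    rw [ray_pow, expand_eval]
    unfold rQ
    rw [rotQ_eval]
  rw [h1, im_mul_ofReal, eval_mul]
  congr 1
  rw [ev_rot, ev_ofReal, ev_ofReal]
  simp

/-- from the sum to its imaginary part on a ray -/
theorem stepF_im {f : ℝ[X]} {e : ι → ℕ} {P Q : ι → ℝ[X]} {S : Finset ι} {p g : ℕ}
    (h : Adm e P Q S p) {θ : ℝ} (h0 : 0 < θ) (hπ : θ < Real.pi)
    (hθ : ∀ j ∈ S, e j * θ ≤ Real.pi) (hpg : p ≤ g) (hfg : f.natDegree * θ ≤ g * Real.pi) :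
    pos (numF f e P Q S) ≤ tdeg Q S + g +
      pos (numF (sinP θ f) e (rP θ e P Q) (rQ θ e Q) S) + 1 := by
  have hp := Real.pi_pos
  by_cases hz : numF f e P Q S = 0
  · rw [hz, pos_zero]; omega
  have hd0 : den e Q S ≠ 0 := den_ne_zero h.pos h.ne
  set W := numF (sinP θ f) e (rP θ e P Q) (rQ θ e Q) S
  have h1 := pos_le_sec h0 (numF f e P Q S)
  have h2 := sec_le_gen (b := 0) (W := W) h0 hπ hz hd0 (by
    intro y
    rw [imF_identity]
    simp [ev])
  have h3 := sec_den_le' h0 h.pos h.ne hθ
  set M : ℕ := ⌊(g * Real.pi) / θ⌋₊ with hM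
  have hM1 : (M : ℝ) * θ ≤ g * Real.pi := by
    have : (M : ℝ) ≤ (g * Real.pi) / θ := Nat.floor_le (by positivity)
    rwa [le_div_iff₀ h0] at this
  have hM2 : f.natDegree ≤ M := by
    apply Nat.le_floor
    rw [le_div_iff₀ h0]; exact hfg
  have hM3 : ∀ j ∈ S, p * e j ≤ M := by
    intro j hj
    apply Nat.le_floor
    rw [le_div_iff₀ h0]
    push_cast
    have h4 := hθ j hj
    have h5 : (p : ℝ) ≤ g := by exact_mod_cast hpg
    have h6 : (0 : ℝ) ≤ p := Nat.cast_nonneg _
    calc (p : ℝ) * e j * θ = p * (e j * θ) := by ring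
      _ ≤ p * Real.pi := mul_le_mul_of_nonneg_left h4 h6
      _ ≤ g * Real.pi := mul_le_mul_of_nonneg_right h5 hp.le
  have h7 := natDegree_numF_le h hM2 hM3
  have h8 : (nzc (numF f e P Q S) : ℝ) ≤ (den e Q S).natDegree + M := by
    exact_mod_cast (nzc_le _).trans h7
  have h9 : 0 < θ / Real.pi := div_pos h0 hp
  have h10 : (M : ℝ) * (θ / Real.pi) ≤ g := by
    rw [mul_div_assoc', div_le_iff₀ hp]; exact hM1
  have h11 : (pos (numF f e P Q S) : ℝ) ≤ tdeg Q S + g + pos W + 1 := by
    have h12 : (pos (numF f e P Q S) : ℝ) ≤ sec θ (numF f e P Q S) := by exact_mod_cast h1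
    have h13 : ((nzc (numF f e P Q S) : ℝ) - nzc (den e Q S)) * (θ / Real.pi) ≤
        ((den e Q S).natDegree + M - nzc (den e Q S)) * (θ / Real.pi) :=
      mul_le_mul_of_nonneg_right (by linarith) h9.le
    have h14 : ((den e Q S).natDegree + M - nzc (den e Q S)) * (θ / Real.pi) =
      (((den e Q S).natDegree : ℝ) - nzc (den e Q S)) * (θ / Real.pi) + M * (θ / Real.pi) := by
      ring
    linarith
  exact_mod_cast h11

/-- drop the terms which are real on the ray -/
lemma posF_rot_split {f : ℝ[X]} {e : ι → ℕ} {P Q : ι → ℝ[X]} {S : Finset ι} {p' : ℕ}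
    (h : Adm e P Q S p') (θ : ℝ) (p : ι → Prop) [DecidablePred p]
    (hp : ∀ j ∈ S, p j → e j * θ = Real.pi) :
    pos (numF f e (rP θ e P Q) (rQ θ e Q) S) ≤ 2 * tdeg Q (S.filter p) +
      pos (numF f e (rP θ e P Q) (rQ θ e Q) (S.filter fun j => ¬ p j)) := by
  have h2 : numF f e (rP θ e P Q) (rQ θ e Q) S = den e (rQ θ e Q) (S.filter p) *
      numF f e (rP θ e P Q) (rQ θ e Q) (S.filter fun j => ¬ p j) := by
    unfold numF
    rw [num_split (P := rP θ e P Q) p fun j hj hpj => rotP_eq_zero_of_pi (hp j hj hpj) _ _]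
    have : den e (rQ θ e Q) S = den e (rQ θ e Q) (S.filter p) *
        den e (rQ θ e Q) (S.filter fun j => ¬ p j) := by
      unfold den
      rw [Finset.prod_filter_mul_prod_filter_not]
    rw [this]; ring
  rw [h2]
  refine (pos_mul_le _ _).trans (add_le_add_left ?_ _)
  have h1 : Adm e P Q (S.filter p) p' := h.mono (Finset.filter_subset _ _)
  refine (pos_den_le h1.pos).trans ?_
  have := tdeg_rot h1.ne θ e
  unfold tdeg at this ⊢
  rw [this]

/-- **A sparse polynomial plus rational functions of few powers.** -/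
theorem pos_numF_le_two_pow (D : ℕ) : ∀ (f : ℝ[X]) (e : ι → ℕ) (P Q : ι → ℝ[X]) (S : Finset ι)
    (p Λ t : ℕ), Adm e P Q S p → (S.image e).card ≤ D → f.support.card ≤ t →
    (∀ j ∈ S, f.natDegree ≤ Λ * e j) →
    pos (numF f e P Q S) ≤ (2 ^ (D + 1) - 1) * tdeg Q S + D * (Λ + p + 1) + (t - 1) := by
  induction D with
  | zero =>
    intro f e P Q S p Λ t h hD ht _
    have : S = ∅ := by
      have := Finset.card_eq_zero.1 (Nat.le_zero.1 hD)
      exact Finset.image_eq_empty.1 this
    subst this
    have h1 := pos_le_support' f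
    have h2 : numF f e P Q ∅ = f := by simp [numF, num, den]
    rw [h2]
    omega
  | succ D ih =>
    intro f e P Q S p Λ t h hD ht hf
    rcases S.eq_empty_or_nonempty with rfl | hne
    · have h1 := pos_le_support' f
      have h2 : numF f e P Q ∅ = f := by simp [numF, num, den]
      rw [h2]
      omega
    obtain ⟨j0, hj0, hmax⟩ := Finset.exists_max_image S e hne
    have hd0 := h.pos j0 hj0
    have hpow : 2 ^ (D + 1 + 1) = 2 * 2 ^ (D + 1) := by ring
    have hpow1 : 2 ≤ 2 ^ (D + 1) := by
      have := Nat.one_le_two_pow (n := D); rw [pow_succ]; omega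
    rcases Nat.lt_or_ge 1 (e j0) with h1 | h1
    · -- the largest exponent is at least two
      set θ : ℝ := Real.pi / e j0 with hθ
      have hp := Real.pi_pos
      have hej : (1 : ℝ) < e j0 := by exact_mod_cast h1
      have h0 : 0 < θ := div_pos hp (by linarith)
      have hπ : θ < Real.pi := by
        rw [hθ, div_lt_iff₀ (by linarith)]
        nlinarith
      have hle : ∀ j ∈ S, e j * θ ≤ Real.pi := by
        intro j hj
        have : (e j : ℝ) ≤ e j0 := by exact_mod_cast hmax j hj
        rw [hθ, mul_div_assoc', div_le_iff₀ (by linarith)]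
        nlinarith
      have hfg : (f.natDegree : ℝ) * θ ≤ ((Λ + p : ℕ) : ℝ) * Real.pi := by
        have h2 : (f.natDegree : ℝ) ≤ Λ * e j0 := by exact_mod_cast hf j0 hj0
        rw [hθ, mul_div_assoc', div_le_iff₀ (by linarith)]
        have h3 : (0 : ℝ) ≤ p := Nat.cast_nonneg _
        push_cast
        have h4 : (f.natDegree : ℝ) * Real.pi ≤ Λ * e j0 * Real.pi :=
          mul_le_mul_of_nonneg_right h2 hp.le
        have h5 : 0 ≤ (p : ℝ) * Real.pi * e j0 := by positivity
        nlinarith
      have s1 := stepF_im (g := Λ + p) h h0 hπ hle (by omega) hfg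
      have s2 := posF_rot_split (f := sinP θ f) h θ (fun j => e j = e j0) (by
        intro j _ hj
        rw [hj, hθ]
        field_simp)
      have hS2 : Adm e P Q (S.filter fun j => ¬ e j = e j0) p := h.mono (Finset.filter_subset _ _)
      have hcard : ((S.filter fun j => ¬ e j = e j0).image e).card ≤ D := by
        have h2 : (S.filter fun j => ¬ e j = e j0).image e ⊆ (S.image e).erase (e j0) := by
          intro d hd
          rw [Finset.mem_image] at hd
          obtain ⟨j, hj, rfl⟩ := hd
          rw [Finset.mem_filter] at hj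
          exact Finset.mem_erase.2 ⟨hj.2, Finset.mem_image_of_mem _ hj.1⟩
        have h3 := Finset.card_le_card h2
        rw [Finset.card_erase_of_mem (Finset.mem_image_of_mem _ hj0)] at h3
        omega
      have s3 := ih (sinP θ f) e _ _ _ p Λ t (hS2.rot θ) hcard
        ((Finset.card_le_card (support_sinP_subset θ f)).trans ht)
        (fun j hj => (natDegree_sinP_le θ f).trans (hf j (Finset.mem_filter.1 hj).1))
      rw [tdeg_rot hS2.ne] at s3
      have s4 := tdeg_split Q S (fun j => e j = e j0)
      set T1 := tdeg Q (S.filter fun j => e j = e j0)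
      set T2 := tdeg Q (S.filter fun j => ¬ e j = e j0)
      rw [s4]
      have e1 : (2 ^ (D + 1 + 1) - 1) * (T1 + T2) = (2 ^ (D + 1 + 1) - 1) * T1 +
        (2 ^ (D + 1 + 1) - 1) * T2 := by ring
      have e2 : 3 * T1 ≤ (2 ^ (D + 1 + 1) - 1) * T1 := Nat.mul_le_mul_right _ (by omega)
      have e3 : (2 ^ (D + 1 + 1) - 1) * T2 = (2 ^ (D + 1) - 1) * (2 * T2) + T2 := by
        have : 2 ^ (D + 1 + 1) - 1 = (2 ^ (D + 1) - 1) * 2 + 1 := by omega
        rw [this]; ring
      have e4 : (D + 1) * (Λ + p + 1) = D * (Λ + p + 1) + (Λ + p + 1) := by ring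
      rw [e1, e3, e4]
      rw [s4] at s1
      omega
    · -- all exponents are one
      have hone : ∀ j ∈ S, e j = 1 := by
        intro j hj
        have := hmax j hj
        have := h.pos j hj
        omega
      have h2 := pos_le_natDegree (numF f e P Q S)
      have hfΛ : f.natDegree ≤ Λ := by
        have := hf j0 hj0
        rw [hone j0 hj0, mul_one] at this
        exact this
      have h3 := natDegree_numF_le (M := Λ + p) (f := f) h (hfΛ.trans (Nat.le_add_right _ _))
        (fun j hj => by rw [hone j hj, mul_one]; exact Nat.le_add_left _ _)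
      have h4 : (den e Q S).natDegree = tdeg Q S := by
        rw [natDegree_den h.pos h.ne]
        unfold tdeg
        exact Finset.sum_congr rfl fun j hj => by rw [hone j hj, mul_one]
      have h5 : tdeg Q S ≤ (2 ^ (D + 1 + 1) - 1) * tdeg Q S :=
        Nat.le_mul_of_pos_left _ (by omega)
      have e4 : (D + 1) * (Λ + p + 1) = D * (Λ + p + 1) + (Λ + p + 1) := by ring
      rw [e4]
      omega

end

end Pool.Agent.T9h48
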