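import Pool.Agent.T9h48.Count2

/-!
# Towers: a sparse polynomial plus rational functions of `x ^ (2 ^ l)`
-/

open Polynomial Complex Filter Topology

set_option linter.unusedSectionVars false

namespace Pool.Agent.T9h48

noncomputable section

variable {ι : Type*} [DecidableEq ι]

lemma sinP_ray (φ : ℝ) (f : ℝ[X]) (w : ℝ) :
    2 * I * ev (sinP φ f) ((w : ℂ) * exp ((φ : ℂ) * I)) =
      ev f ((w : ℂ) * exp (((2 * φ : ℝ) : ℂ) * I)) - ev f w := by
  have e1 : (w : ℂ) * exp (((2 * φ : ℝ) : ℂ) * I) =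
      (w : ℂ) * exp ((φ : ℂ) * I) * exp ((φ : ℂ) * I) := by
    rw [mul_assoc, ← exp_add]; congr 2; push_cast; ring
  have e2 : (w : ℂ) = (w : ℂ) * exp ((φ : ℂ) * I) * exp (-((φ : ℂ) * I)) := by
    rw [mul_assoc, ← exp_add]; simp
  have hP1 := ev_rot φ f ((w : ℂ) * exp ((φ : ℂ) * I))
  have hP2 := ev_rot_neg φ f ((w : ℂ) * exp ((φ : ℂ) * I))
  rw [← e1] at hP1
  rw [← e2] at hP2
  rw [hP1, hP2]
  ring

lemma sinP_eval (φ : ℝ) (f : ℝ[X]) (w : ℝ) :
    (sinP φ f).eval w = (ev f ((w : ℂ) * exp ((φ : ℂ) * I))).im := by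
  rw [ev_rot, ev_ofReal, ev_ofReal]
  simp

lemma reF_identity (θ : ℝ) (f : ℝ[X]) (e : ι → ℕ) (P Q : ι → ℝ[X]) (S : Finset ι) (y : ℝ) :
    (C (1 / 2 : ℝ) * den e Q S ^ 2 *
        numF (sinP (2 * θ) f) e (rP (2 * θ) e P Q) (rQ (2 * θ) e Q) S).eval y =
      (ev (numF (sinP θ f) e (rP θ e P Q) (rQ θ e Q) S) ((y : ℂ) * exp ((θ : ℂ) * I)) *
        starRingEnd ℂ (ev (den e (rQ θ e Q) S) ((y : ℂ) * exp ((θ : ℂ) * I)))).re := by
  have h0 := re_identity θ e P Q S y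
  have hden : ∀ T : Finset ι, ev (den e (rQ θ e Q) T) ((y : ℂ) * exp ((θ : ℂ) * I)) =
      ev (den e Q T) ((y : ℂ) * exp (((2 * θ : ℝ) : ℂ) * I)) * ev (den e Q T) y := by
    intro T
    rw [ev_den, ev_den, ev_den, ← Finset.prod_mul_distrib]
    refine Finset.prod_congr rfl fun j _ => ?_
    rw [ray_pow, ray_pow]
    unfold rQ
    rw [rotQ_ray]
    push_cast
    congr 5
    ring
  have hdd : ev (den e Q S) ((y : ℂ) * exp (((2 * θ : ℝ) : ℂ) * I)) *
      starRingEnd ℂ (ev (den e Q S) ((y : ℂ) * exp (((2 * θ : ℝ) : ℂ) * I))) =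
      (((den e (rQ (2 * θ) e Q) S).eval y : ℝ) : ℂ) := by
    rw [ev_den, map_prod, ← Finset.prod_mul_distrib]
    unfold den
    rw [eval_prod, ofReal_prod]
    refine Finset.prod_congr rfl fun i _ => ?_
    rw [ray_pow, expand_eval]
    unfold rQ
    rw [rotQ_eval]
  have hf : (ev (sinP θ f) ((y : ℂ) * exp ((θ : ℂ) * I))).re =
      1 / 2 * (sinP (2 * θ) f).eval y := by
    have h1 := congrArg Complex.im (sinP_ray θ f y)
    have h4 : ∀ z : ℂ, (2 * I * z).im = 2 * z.re := by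
      intro z
      simp [mul_im]
    rw [h4, sub_im, ← sinP_eval, ev_ofReal, ofReal_im, sub_zero] at h1
    linarith
  unfold numF
  rw [ev_add, add_mul, add_re, ← h0, ev_mul, mul_assoc (ev (sinP θ f) _)]
  have hr : ev (den e (rQ θ e Q) S) ((y : ℂ) * exp ((θ : ℂ) * I)) *
      starRingEnd ℂ (ev (den e (rQ θ e Q) S) ((y : ℂ) * exp ((θ : ℂ) * I))) =
      ((((den e Q S).eval y) ^ 2 * (den e (rQ (2 * θ) e Q) S).eval y : ℝ) : ℂ) := by
    have hc : starRingEnd ℂ (ev (den e Q S) (y : ℂ)) = ev (den e Q S) (y : ℂ) := by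
      rw [ev_ofReal, conj_ofReal]
    rw [hden S, map_mul, hc]
    have h5 : ∀ a b c d : ℂ, a * b * (c * d) = (b * d) * (a * c) := by intros; ring
    rw [h5, hdd, ev_ofReal]
    push_cast
    ring
  rw [hr, re_mul_ofReal, hf]
  simp only [eval_mul, eval_add, eval_C, eval_pow]
  ring

/-- from the ray with the angle `θ` to the one with the angle `2 θ` -/
theorem stepF_re {f : ℝ[X]} {e : ι → ℕ} {P Q : ι → ℝ[X]} {S : Finset ι} {p : ℕ} {M : ℝ}
    (h : Adm e P Q S p) {θ : ℝ} (h0 : 0 < θ) (hπ : θ < Real.pi)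
    (hθ : ∀ j ∈ S, e j * θ ≤ Real.pi) (hM : p * (Real.pi / θ) ≤ M) (hfM : f.natDegree ≤ M) :
    (pos (numF (sinP θ f) e (rP θ e P Q) (rQ θ e Q) S) : ℝ) ≤ 3 * tdeg Q S + M * (θ / Real.pi) +
      pos (numF (sinP (2 * θ) f) e (rP (2 * θ) e P Q) (rQ (2 * θ) e Q) S) + 1 := by
  have hp := Real.pi_pos
  have h9 : 0 < θ / Real.pi := div_pos h0 hp
  have hM0 : 0 ≤ M := le_trans (by positivity) hM
  by_cases hz : numF (sinP θ f) e (rP θ e P Q) (rQ θ e Q) S = 0
  · rw [hz, pos_zero]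
    have : 0 ≤ M * (θ / Real.pi) := by positivity
    push_cast
    positivity
  have h' := h.rot θ
  have hd0 : den e (rQ θ e Q) S ≠ 0 := den_ne_zero h'.pos h'.ne
  set W := numF (sinP (2 * θ) f) e (rP (2 * θ) e P Q) (rQ (2 * θ) e Q) S
  have h1 := pos_le_sec h0 (numF (sinP θ f) e (rP θ e P Q) (rQ θ e Q) S)
  have h2 := sec_le_gen (b := Real.pi / 2) (W := C (1 / 2 : ℝ) * den e Q S ^ 2 * W) h0 hπ hz hd0 (by
    intro y
    rw [reF_identity]
    have : exp (((Real.pi / 2 : ℝ) : ℂ) * I) = I := by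
      push_cast
      exact exp_pi_div_two_mul_I
    rw [this]
    simp [ev, mul_assoc])
  have h3 := sec_den_le' h0 h'.pos h'.ne hθ
  rw [tdeg_rot h.ne] at h3
  set N : ℕ := ⌊M⌋₊ with hN
  have hN1 : (N : ℝ) ≤ M := Nat.floor_le hM0
  have hM2 : (sinP θ f).natDegree ≤ N :=
    (natDegree_sinP_le θ f).trans (Nat.le_floor hfM)
  have hM3 : ∀ j ∈ S, p * e j ≤ N := by
    intro j hj
    apply Nat.le_floor
    refine le_trans ?_ hM
    push_cast
    have h4 := hθ j hj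
    have h6 : (0 : ℝ) ≤ p := Nat.cast_nonneg _
    refine mul_le_mul_of_nonneg_left ?_ h6
    rw [le_div_iff₀ h0]; exact h4
  have h7 := natDegree_numF_le h' hM2 hM3
  have h8 : (nzc (numF (sinP θ f) e (rP θ e P Q) (rQ θ e Q) S) : ℝ) ≤
      (den e (rQ θ e Q) S).natDegree + N := by
    exact_mod_cast (nzc_le _).trans h7
  have h10 : pos (C (1 / 2 : ℝ) * den e Q S ^ 2 * W) ≤ tdeg Q S + pos W := by
    refine (pos_mul_le _ _).trans (add_le_add_left ?_ _)
    refine (pos_mul_le _ _).trans ?_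
    rw [pos_C, zero_add]
    exact (pos_pow_le _ _).trans (pos_den_le h.pos)
  have h11 : (pos (C (1 / 2 : ℝ) * den e Q S ^ 2 * W) : ℝ) ≤ tdeg Q S + pos W := by
    exact_mod_cast h10
  have h12 : (pos (numF (sinP θ f) e (rP θ e P Q) (rQ θ e Q) S) : ℝ) ≤
      sec θ (numF (sinP θ f) e (rP θ e P Q) (rQ θ e Q) S) := by exact_mod_cast h1
  have h13 : ((nzc (numF (sinP θ f) e (rP θ e P Q) (rQ θ e Q) S) : ℝ) -
      nzc (den e (rQ θ e Q) S)) * (θ / Real.pi) ≤
      ((den e (rQ θ e Q) S).natDegree + M - nzc (den e (rQ θ e Q) S)) * (θ / Real.pi) :=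
    mul_le_mul_of_nonneg_right (by linarith) h9.le
  have h14 : ((den e (rQ θ e Q) S).natDegree + M - nzc (den e (rQ θ e Q) S)) * (θ / Real.pi) =
    (((den e (rQ θ e Q) S).natDegree : ℝ) - nzc (den e (rQ θ e Q) S)) * (θ / Real.pi) +
      M * (θ / Real.pi) := by ring
  push_cast at h3
  linarith

/-- from the sum to its imaginary part on a ray, real version -/
theorem stepF_im' {f : ℝ[X]} {e : ι → ℕ} {P Q : ι → ℝ[X]} {S : Finset ι} {p : ℕ} {M : ℝ}
    (h : Adm e P Q S p) {θ : ℝ} (h0 : 0 < θ) (hπ : θ < Real.pi)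
    (hθ : ∀ j ∈ S, e j * θ ≤ Real.pi) (hM : p * (Real.pi / θ) ≤ M) (hfM : f.natDegree ≤ M) :
    (pos (numF f e P Q S) : ℝ) ≤ tdeg Q S + M * (θ / Real.pi) +
      pos (numF (sinP θ f) e (rP θ e P Q) (rQ θ e Q) S) + 1 := by
  have hp := Real.pi_pos
  have h9 : 0 < θ / Real.pi := div_pos h0 hp
  have hM0 : 0 ≤ M := le_trans (by positivity) hM
  by_cases hz : numF f e P Q S = 0
  · rw [hz, pos_zero]
    have : 0 ≤ M * (θ / Real.pi) := by positivity
    push_cast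
    positivity
  have hd0 : den e Q S ≠ 0 := den_ne_zero h.pos h.ne
  set W := numF (sinP θ f) e (rP θ e P Q) (rQ θ e Q) S
  have h1 := pos_le_sec h0 (numF f e P Q S)
  have h2 := sec_le_gen (b := 0) (W := W) h0 hπ hz hd0 (by
    intro y
    rw [imF_identity]
    simp [ev])
  have h3 := sec_den_le' h0 h.pos h.ne hθ
  set N : ℕ := ⌊M⌋₊ with hN
  have hN1 : (N : ℝ) ≤ M := Nat.floor_le hM0
  have hM3 : ∀ j ∈ S, p * e j ≤ N := by
    intro j hj
    apply Nat.le_floor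
    refine le_trans ?_ hM
    push_cast
    have h4 := hθ j hj
    have h6 : (0 : ℝ) ≤ p := Nat.cast_nonneg _
    refine mul_le_mul_of_nonneg_left ?_ h6
    rw [le_div_iff₀ h0]; exact h4
  have h7 := natDegree_numF_le h (Nat.le_floor hfM) hM3
  have h8 : (nzc (numF f e P Q S) : ℝ) ≤ (den e Q S).natDegree + N := by
    exact_mod_cast (nzc_le _).trans h7
  have h12 : (pos (numF f e P Q S) : ℝ) ≤ sec θ (numF f e P Q S) := by exact_mod_cast h1
  have h13 : ((nzc (numF f e P Q S) : ℝ) - nzc (den e Q S)) * (θ / Real.pi) ≤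
      ((den e Q S).natDegree + M - nzc (den e Q S)) * (θ / Real.pi) :=
    mul_le_mul_of_nonneg_right (by linarith) h9.le
  have h14 : ((den e Q S).natDegree + M - nzc (den e Q S)) * (θ / Real.pi) =
    (((den e Q S).natDegree : ℝ) - nzc (den e Q S)) * (θ / Real.pi) + M * (θ / Real.pi) := by
    ring
  linarith

/-- **Exponents which are powers of two**, on a ray. -/
theorem posF_rot_tower (m k : ℕ) (f : ℝ[X]) (t p : ℕ) (ht : f.support.card ≤ t) (hmk : m ≤ k) :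
    ∀ (e : ι → ℕ) (P Q : ι → ℝ[X]) (S : Finset ι),
    Adm e P Q S p → (∀ j ∈ S, ∃ l, m ≤ l ∧ l < k ∧ e j = 2 ^ l) →
    (pos (numF (sinP (Real.pi / 2 ^ k) f) e (rP (Real.pi / 2 ^ k) e P Q)
      (rQ (Real.pi / 2 ^ k) e Q) S) : ℝ) ≤
      ((k - m : ℕ) : ℝ) * (3 * tdeg Q S + p + 1) + 2 * tdeg Q S +
        f.natDegree * (1 / 2 ^ m - 1 / 2 ^ k) + ((t - 1 : ℕ) : ℝ) := by
  induction k, hmk using Nat.le_induction with
  | base =>
    intro e P Q S h hS
    have : S = ∅ := by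
      rw [Finset.eq_empty_iff_forall_notMem]
      intro j hj
      obtain ⟨l, hl, hl', _⟩ := hS j hj
      omega
    subst this
    have h1 := pos_le_support' (sinP (Real.pi / 2 ^ m) f)
    have h2 := (Finset.card_le_card (support_sinP_subset (Real.pi / 2 ^ m) f)).trans ht
    have h3 : pos (sinP (Real.pi / 2 ^ m) f) ≤ t - 1 := by omega
    have h4 : (pos (sinP (Real.pi / 2 ^ m) f) : ℝ) ≤ ((t - 1 : ℕ) : ℝ) := by exact_mod_cast h3
    simp only [numF, num, den, tdeg, Finset.sum_empty, Finset.prod_empty, mul_one, add_zero]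
    simpa using h4
  | succ k hk ih =>
    intro e P Q S h hS
    have hp := Real.pi_pos
    set θ : ℝ := Real.pi / 2 ^ (k + 1) with hθ
    have h2k : (0 : ℝ) < 2 ^ (k + 1) := by positivity
    have h2k' : (0 : ℝ) < 2 ^ k := by positivity
    have h1k : (1 : ℝ) ≤ 2 ^ k := one_le_pow₀ (by norm_num)
    have h0 : 0 < θ := div_pos hp h2k
    have h2θ : 2 * θ = Real.pi / 2 ^ k := by
      rw [hθ, pow_succ]; field_simp
    have hπ : θ < Real.pi := by
      rw [hθ, div_lt_iff₀ h2k, pow_succ]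
      nlinarith
    have hle : ∀ j ∈ S, e j * θ ≤ Real.pi := by
      intro j hj
      obtain ⟨l, _, hl, hl'⟩ := hS j hj
      rw [hl', hθ, mul_div_assoc', div_le_iff₀ h2k]
      push_cast
      have : (2 : ℝ) ^ l ≤ 2 ^ (k + 1) := pow_le_pow_right₀ (by norm_num) (by omega)
      nlinarith
    have hpθ : Real.pi / θ = 2 ^ (k + 1) := by
      rw [hθ]; field_simp
    have hθp : θ / Real.pi = 1 / 2 ^ (k + 1) := by
      rw [hθ]; field_simp
    have s1 := stepF_re (M := f.natDegree + p * 2 ^ (k + 1)) h h0 hπ hle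
      (by rw [hpθ]; have := Nat.cast_nonneg (α := ℝ) f.natDegree; linarith)
      (by have : (0 : ℝ) ≤ p * 2 ^ (k + 1) := by positivity
          linarith)
    rw [hθp] at s1
    have s1' : ((f.natDegree : ℝ) + p * 2 ^ (k + 1)) * (1 / 2 ^ (k + 1)) =
      f.natDegree * (1 / 2 ^ (k + 1)) + p := by
      field_simp
    rw [s1'] at s1
    rw [h2θ] at s1
    have s2 := posF_rot_split (f := sinP (Real.pi / 2 ^ k) f) h (Real.pi / 2 ^ k)
      (fun j => e j = 2 ^ k) (by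
      intro j _ hj
      rw [hj]
      push_cast
      field_simp)
    have hS2 : Adm e P Q (S.filter fun j => ¬ e j = 2 ^ k) p := h.mono (Finset.filter_subset _ _)
    have s3 := ih e P Q _ hS2 (by
      intro j hj
      rw [Finset.mem_filter] at hj
      obtain ⟨l, hml, hl, hl'⟩ := hS j hj.1
      refine ⟨l, hml, ?_, hl'⟩
      rcases Nat.lt_succ_iff_lt_or_eq.1 hl with h3 | h3
      · exact h3
      · subst h3
        exact absurd hl' hj.2)
    have s4 := tdeg_split Q S (fun j => e j = 2 ^ k)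
    set T1 := tdeg Q (S.filter fun j => e j = 2 ^ k)
    set T2 := tdeg Q (S.filter fun j => ¬ e j = 2 ^ k)
    have s2' : (pos (numF (sinP (Real.pi / 2 ^ k) f) e (rP (Real.pi / 2 ^ k) e P Q)
      (rQ (Real.pi / 2 ^ k) e Q) S) : ℝ) ≤ 2 * T1 +
      pos (numF (sinP (Real.pi / 2 ^ k) f) e (rP (Real.pi / 2 ^ k) e P Q)
      (rQ (Real.pi / 2 ^ k) e Q) (S.filter fun j => ¬ e j = 2 ^ k)) := by exact_mod_cast s2
    have s4' : (tdeg Q S : ℝ) = T1 + T2 := by exact_mod_cast s4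
    have hT1 : (0 : ℝ) ≤ T1 := Nat.cast_nonneg _
    have hkm : ((k + 1 - m : ℕ) : ℝ) = ((k - m : ℕ) : ℝ) + 1 := by
      rw [Nat.succ_sub hk]; push_cast; ring
    have hk0 : (0 : ℝ) ≤ ((k - m : ℕ) : ℝ) := Nat.cast_nonneg _
    have e1 : ((k - m : ℕ) : ℝ) * (3 * T2 + p + 1) ≤ ((k - m : ℕ) : ℝ) * (3 * tdeg Q S + p + 1) :=
      mul_le_mul_of_nonneg_left (by linarith) hk0
    have e2 : (1 : ℝ) / 2 ^ k = 1 / 2 ^ (k + 1) + 1 / 2 ^ (k + 1) := by
      rw [pow_succ]; field_simp; norm_num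
    rw [hkm]
    have e3 : (f.natDegree : ℝ) * (1 / 2 ^ m - 1 / 2 ^ k) + f.natDegree * (1 / 2 ^ (k + 1)) =
      f.natDegree * (1 / 2 ^ m - 1 / 2 ^ (k + 1)) := by
      rw [e2]; ring
    have e4 : (((k - m : ℕ) : ℝ) + 1) * (3 * tdeg Q S + p + 1) =
      ((k - m : ℕ) : ℝ) * (3 * tdeg Q S + p + 1) + (3 * tdeg Q S + p + 1) := by ring
    rw [e4]
    linarith

/-- **Exponents which are powers of two.** -/
theorem posF_le_tower (m L : ℕ) (hmL : m ≤ L) (f : ℝ[X]) (t p : ℕ) (ht : f.support.card ≤ t)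
    (e : ι → ℕ) (P Q : ι → ℝ[X]) (S : Finset ι) (h : Adm e P Q S p)
    (hS : ∀ j ∈ S, ∃ l, m ≤ l ∧ l ≤ L ∧ e j = 2 ^ l) (Λ : ℕ) (hΛ : f.natDegree ≤ Λ * 2 ^ m) :
    pos (numF f e P Q S) ≤ (L - m + 2) * (3 * tdeg Q S + p + 1) + Λ + (t - 1) := by
  have hp := Real.pi_pos
  set θ : ℝ := Real.pi / 2 ^ (L + 1) with hθ
  have h2k : (0 : ℝ) < 2 ^ (L + 1) := by positivity
  have h1k : (1 : ℝ) ≤ 2 ^ L := one_le_pow₀ (by norm_num)
  have h0 : 0 < θ := div_pos hp h2k
  have hπ : θ < Real.pi := by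
    rw [hθ, div_lt_iff₀ h2k, pow_succ]
    nlinarith
  have hle : ∀ j ∈ S, e j * θ ≤ Real.pi := by
    intro j hj
    obtain ⟨l, _, hl, hl'⟩ := hS j hj
    rw [hl', hθ, mul_div_assoc', div_le_iff₀ h2k]
    push_cast
    have : (2 : ℝ) ^ l ≤ 2 ^ (L + 1) := pow_le_pow_right₀ (by norm_num) (by omega)
    nlinarith
  have hpθ : Real.pi / θ = 2 ^ (L + 1) := by
    rw [hθ]; field_simp
  have hθp : θ / Real.pi = 1 / 2 ^ (L + 1) := by
    rw [hθ]; field_simp
  have s1 := stepF_im' (M := f.natDegree + p * 2 ^ (L + 1)) h h0 hπ hle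
      (by rw [hpθ]; have := Nat.cast_nonneg (α := ℝ) f.natDegree; linarith)
      (by have : (0 : ℝ) ≤ p * 2 ^ (L + 1) := by positivity
          linarith)
  rw [hθp] at s1
  have s1' : ((f.natDegree : ℝ) + p * 2 ^ (L + 1)) * (1 / 2 ^ (L + 1)) =
      f.natDegree * (1 / 2 ^ (L + 1)) + p := by
    field_simp
  rw [s1'] at s1
  have s2 := posF_rot_tower m (L + 1) f t p ht (by omega) e P Q S h (fun j hj => by
    obtain ⟨l, hml, hl, hl'⟩ := hS j hj
    exact ⟨l, hml, by omega, hl'⟩)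
  rw [← hθ] at s2
  have hkm : ((L + 1 - m : ℕ) : ℝ) = ((L - m : ℕ) : ℝ) + 1 := by
    rw [Nat.succ_sub hmL]; push_cast; ring
  rw [hkm] at s2
  have h2m : (0 : ℝ) < 2 ^ m := by positivity
  have e3 : (f.natDegree : ℝ) * (1 / 2 ^ m) ≤ Λ := by
    rw [mul_one_div, div_le_iff₀ h2m]
    exact_mod_cast hΛ
  have e5 : (pos (numF f e P Q S) : ℝ) ≤ (((L - m + 2) * (3 * tdeg Q S + p + 1) + Λ +
      (t - 1) : ℕ) : ℝ) := by
    push_cast
    have e4 : (((L - m : ℕ) : ℝ) + 2) * (3 * tdeg Q S + p + 1) =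
      (((L - m : ℕ) : ℝ) + 1) * (3 * tdeg Q S + p + 1) + (3 * tdeg Q S + p + 1) := by ring
    rw [e4]
    have e6 : (f.natDegree : ℝ) * (1 / 2 ^ m - 1 / 2 ^ (L + 1)) =
      f.natDegree * (1 / 2 ^ m) - f.natDegree * (1 / 2 ^ (L + 1)) := by ring
    rw [e6] at s2
    linarith
  exact_mod_cast e5

/-! ### all real zeros -/

lemma numF_comp_neg (f : ℝ[X]) (e : ι → ℕ) (P Q : ι → ℝ[X]) (S : Finset ι) :
    (numF f e P Q S).comp (-X) = numF (f.comp (-X)) e (refl e P) (refl e Q) S := by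
  unfold numF num den
  rw [add_comp, mul_comp, prod_comp, Polynomial.sum_comp]
  congr 1
  · congr 1
    exact Finset.prod_congr rfl fun j _ => by rw [expand_comp_neg]; rfl
  · refine Finset.sum_congr rfl fun j _ => ?_
    rw [mul_comp, prod_comp, expand_comp_neg]
    congr 1
    exact Finset.prod_congr rfl fun j _ => by rw [expand_comp_neg]; rfl

lemma natDegree_refl (e : ι → ℕ) (G : ι → ℝ[X]) (j : ι) :
    (refl e G j).natDegree = (G j).natDegree := by
  unfold refl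
  rw [natDegree_comp, natDegree_C_mul_X _ (pow_ne_zero _ (by norm_num)), mul_one]

lemma Adm.refl {e : ι → ℕ} {P Q : ι → ℝ[X]} {S : Finset ι} {p : ℕ} (h : Adm e P Q S p) :
    Adm e (refl e P) (refl e Q) S p := by
  refine ⟨h.pos, fun j hj h0 => h.ne j hj ?_, fun j hj => ?_⟩
  · unfold T9h48.refl at h0
    have hc : ((-1 : ℝ) ^ e j) * (-1) ^ e j = 1 := by
      rw [← mul_pow]; norm_num
    have h1 := congrArg (fun q => q.comp (C ((-1 : ℝ) ^ e j) * X)) h0
    simp only [comp_assoc, mul_comp, C_comp, X_comp, zero_comp] at h1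
    rw [← mul_assoc, ← C_mul, hc, C_1, one_mul, comp_X] at h1
    exact h1
  · rw [natDegree_refl, natDegree_refl]
    exact h.deg j hj

lemma tdeg_refl (e : ι → ℕ) (G : ι → ℝ[X]) (S : Finset ι) : tdeg (refl e G) S = tdeg G S := by
  unfold tdeg
  exact Finset.sum_congr rfl fun j _ => natDegree_refl e G j

lemma card_support_comp_neg (f : ℝ[X]) : (f.comp (-X)).support.card ≤ f.support.card := by
  apply Finset.card_le_card
  intro k hk
  rw [mem_support_iff] at hk ⊢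
  intro h
  apply hk
  have : (f.comp (-X)) = f.comp (C (-1 : ℝ) * X) := by simp
  rw [this, comp_C_mul_X_coeff, h, zero_mul]

lemma natDegree_comp_neg (f : ℝ[X]) : (f.comp (-X)).natDegree = f.natDegree := by
  rw [natDegree_comp, natDegree_neg, natDegree_X, mul_one]

end

end Pool.Agent.T9h48
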