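import Pool.Agent.T9h48.Two

/-!
# Binary forms in two products
-/

open Polynomial Filter Topology

set_option linter.unusedSectionVars false

namespace Pool.Agent.T9h48

noncomputable section

/-- real roots of `∑ i < k, c i U ^ i V ^ (k - 1 - i)` -/
theorem card_form_le (U V : ℝ[X]) (B : ℕ)
    (hB : ∀ a b : ℝ, (C a * U + C b * V).roots.toFinset.card ≤ B) (k : ℕ) (c : ℕ → ℝ) :
    (∑ i ∈ Finset.range k, C (c i) * U ^ i * V ^ (k - 1 - i)).roots.toFinset.card ≤ k * B := by
  classical
  set f := ∑ i ∈ Finset.range k, C (c i) * U ^ i * V ^ (k - 1 - i) with hf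
  by_cases hf0 : f = 0
  · rw [hf0]; simp
  rcases Nat.eq_zero_or_pos k with rfl | hk
  · simp [hf] at hf0
  set H : ℝ[X] := ∑ i ∈ Finset.range k, C (c i) * X ^ i with hH
  have hHdeg : H.natDegree ≤ k - 1 := by
    rw [hH]
    apply natDegree_sum_le_of_forall_le
    intro i hi
    refine (natDegree_C_mul_X_pow_le _ _).trans ?_
    have := Finset.mem_range.1 hi
    omega
  have hHe : ∀ ρ : ℝ, H.eval ρ = ∑ i ∈ Finset.range k, c i * ρ ^ i := by
    intro ρ
    rw [hH, eval_finsetSum]
    simp
  have hH0 : H ≠ 0 := by
    intro h
    apply hf0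
    have hc : ∀ i ∈ Finset.range k, c i = 0 := by
      intro i hi
      have h1 := congrArg (fun p => p.coeff i) h
      simp only [hH, finsetSum_coeff, coeff_C_mul, coeff_X_pow, coeff_zero] at h1
      simpa [Finset.sum_ite_eq, Finset.mem_range.1 hi] using h1
    rw [hf]
    refine Finset.sum_eq_zero fun i hi => ?_
    rw [hc i hi]; simp
  by_cases hV0 : V = 0
  · have hfe : f = C (c (k - 1)) * U ^ (k - 1) := by
      rw [hf, Finset.sum_eq_single (k - 1)]
      · simp
      · intro i hi hik
        have := Finset.mem_range.1 hi
        rw [hV0, zero_pow (by omega), mul_zero]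
      · intro h; exact absurd (Finset.mem_range.2 (by omega)) h
    have hsub : f.roots.toFinset ⊆ (C (1 : ℝ) * U + C 0 * V).roots.toFinset := by
      intro y hy
      simp only [Multiset.mem_toFinset, mem_roots', IsRoot.def] at hy ⊢
      by_cases hk1 : k - 1 = 0
      · rw [hk1, pow_zero, mul_one] at hfe
        have h2 := hy.2
        rw [hfe, eval_C] at h2
        exact absurd (by rw [hfe, h2, C_0]) hf0
      · have h2 := hy.2
        rw [hfe, eval_mul, eval_C, eval_pow] at h2
        have hc : c (k - 1) ≠ 0 := by
          intro h; apply hf0; rw [hfe, h]; simp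
        have hU : U.eval y = 0 := by
          rcases mul_eq_zero.1 h2 with h3 | h3
          · exact absurd h3 hc
          · exact eq_zero_of_pow_eq_zero h3
        have hU0 : U ≠ 0 := by
          rintro rfl
          apply hf0; rw [hfe, zero_pow hk1, mul_zero]
        exact ⟨by simpa using hU0, by simpa using hU⟩
    refine (Finset.card_le_card hsub).trans ((hB 1 0).trans ?_)
    exact Nat.le_mul_of_pos_left _ hk
  have hsub : f.roots.toFinset ⊆ (C (0 : ℝ) * U + C 1 * V).roots.toFinset ∪
      H.roots.toFinset.biUnion (fun ρ => (C (1 : ℝ) * U + C (-ρ) * V).roots.toFinset) := by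
    intro y hy
    simp only [Finset.mem_union, Finset.mem_biUnion, Multiset.mem_toFinset, mem_roots',
      IsRoot.def] at hy ⊢
    by_cases hV : V.eval y = 0
    · left
      refine ⟨by simpa using hV0, by simpa using hV⟩
    · right
      refine ⟨U.eval y / V.eval y, ⟨hH0, ?_⟩, ?_, ?_⟩
      · rw [hHe]
        have h2 := hy.2
        rw [hf, eval_finsetSum] at h2
        have h3 : ∑ i ∈ Finset.range k, c i * (U.eval y / V.eval y) ^ i =
            (∑ i ∈ Finset.range k, (C (c i) * U ^ i * V ^ (k - 1 - i)).eval y) /
              V.eval y ^ (k - 1) := by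
          rw [Finset.sum_div]
          refine Finset.sum_congr rfl fun i hi => ?_
          have := Finset.mem_range.1 hi
          simp only [eval_mul, eval_C, eval_pow]
          have h4 : V.eval y ^ (k - 1) = V.eval y ^ i * V.eval y ^ (k - 1 - i) := by
            rw [← pow_add]; congr 1; omega
          rw [h4, div_pow]
          field_simp
        rw [h3, h2, zero_div]
      · intro h
        apply hf0
        have hU : U = C (U.eval y / V.eval y) * V := by
          have : U = (C 1 * U + C (-(U.eval y / V.eval y)) * V) +
              C (U.eval y / V.eval y) * V := by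
            rw [C_neg, C_1]; ring
          rw [h, zero_add] at this
          exact this
        have h5 : f = C (H.eval (U.eval y / V.eval y)) * V ^ (k - 1) := by
          rw [hf, hHe, map_sum, Finset.sum_mul]
          refine Finset.sum_congr rfl fun i hi => ?_
          have := Finset.mem_range.1 hi
          conv_lhs => rw [hU]
          rw [mul_pow, ← C_pow, C_mul]
          have h4 : V ^ (k - 1) = V ^ i * V ^ (k - 1 - i) := by
            rw [← pow_add]; congr 1; omega
          rw [h4]; ring
        have h6 := hy.2
        rw [h5, eval_mul, eval_C, eval_pow] at h6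
        rcases mul_eq_zero.1 h6 with h7 | h7
        · rw [h5, h7]; simp
        · exact absurd (eq_zero_of_pow_eq_zero h7) hV
      · simp only [eval_add, eval_mul, eval_C]
        field_simp
        ring
  refine (Finset.card_le_card hsub).trans ?_
  refine (Finset.card_union_le _ _).trans ?_
  have h1 : (H.roots.toFinset.biUnion
      (fun ρ => (C (1 : ℝ) * U + C (-ρ) * V).roots.toFinset)).card ≤ (k - 1) * B := by
    refine (Finset.card_biUnion_le_card_mul _ _ B fun ρ _ => hB 1 (-ρ)).trans ?_
    exact Nat.mul_le_mul_right _ ((Multiset.toFinset_card_le _).trans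
      ((card_roots' _).trans hHdeg))
  have h2 := hB 0 1
  have h3 : k * B = B + (k - 1) * B := by
    obtain ⟨k', rfl⟩ : ∃ k', k = k' + 1 := ⟨k - 1, by omega⟩
    simp only [Nat.add_sub_cancel]; ring
  omega

end

end Pool.Agent.T9h48
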