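import Mathlib

/-!
# The phase of a rational function on a ray

For a real polynomial `G` the number `sec θ G` is the number of its nonzero complex roots with
`-θ < arg z ≤ θ`, with multiplicities, and `pos G` is the number of its different positive roots.
The main result `sec_le` compares `sec θ P` and `sec θ Q` by means of the zeros of the imaginary
part of `β * P * conj Q` on the ray with the angle `θ`.
-/

open Polynomial Complex Filter Topology

namespace Pool.Agent.T9h48

noncomputable section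

/-- the number of different positive roots -/
def pos (G : ℝ[X]) : ℕ := (G.roots.toFinset.filter (fun y => 0 < y)).card

/-- the complex roots of a real polynomial -/
def croots (G : ℝ[X]) : Multiset ℂ := (G.map ofRealHom).roots

/-- nonzero and `-θ < arg z ≤ θ` -/
def InSec (θ : ℝ) (z : ℂ) : Prop := z ≠ 0 ∧ -θ < arg z ∧ arg z ≤ θ

open Classical in
/-- the number of roots in the half open sector, with multiplicities -/
def sec (θ : ℝ) (G : ℝ[X]) : ℕ := ((croots G).filter (InSec θ)).card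

lemma map_ne_zero' {G : ℝ[X]} (hG : G ≠ 0) : G.map ofRealHom ≠ 0 :=
  (Polynomial.map_ne_zero_iff ofRealHom.injective).2 hG

lemma croots_mul {G H : ℝ[X]} (hG : G ≠ 0) (hH : H ≠ 0) :
    croots (G * H) = croots G + croots H := by
  unfold croots
  rw [Polynomial.map_mul, roots_mul]
  exact mul_ne_zero (map_ne_zero' hG) (map_ne_zero' hH)

lemma sec_mul (θ : ℝ) {G H : ℝ[X]} (hG : G ≠ 0) (hH : H ≠ 0) :
    sec θ (G * H) = sec θ G + sec θ H := by
  unfold sec
  rw [croots_mul hG hH, Multiset.filter_add, Multiset.card_add]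

lemma card_croots (G : ℝ[X]) : (croots G).card = G.natDegree := by
  unfold croots
  rw [IsAlgClosed.card_roots_eq_natDegree, natDegree_map]

lemma croots_conj (G : ℝ[X]) : (croots G).map (starRingEnd ℂ) = croots G := by
  unfold croots
  have h : (G.map ofRealHom).map (starRingEnd ℂ) = G.map ofRealHom := by
    rw [Polynomial.map_map]
    congr 1
    ext x
    simp
  have h2 := (IsAlgClosed.splits (G.map ofRealHom)).roots_map (starRingEnd ℂ)
  rw [h] at h2
  exact h2.symm

lemma eval_map_ofReal (G : ℝ[X]) (y : ℝ) :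
    (G.map ofRealHom).eval (y : ℂ) = ((G.eval y : ℝ) : ℂ) := by
  rw [Polynomial.eval_map]
  have h2 := Polynomial.eval₂_at_apply (ofRealHom) (p := G) y
  simpa only [ofRealHom_eq_coe] using h2

lemma pos_le_sec {θ : ℝ} (hθ : 0 < θ) (G : ℝ[X]) : pos G ≤ sec θ G := by
  classical
  by_cases hG : G = 0
  · subst hG; simp [pos]
  unfold pos sec
  have h1 : ((G.roots.toFinset.filter (fun y => 0 < y)).image (fun y : ℝ => (y : ℂ))).card =
      (G.roots.toFinset.filter (fun y => 0 < y)).card :=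
    Finset.card_image_of_injective _ ofReal_injective
  rw [← h1]
  refine le_trans (Finset.card_le_card (t := ((croots G).filter (InSec θ)).toFinset) ?_)
    (Multiset.toFinset_card_le _)
  intro z hz
  simp only [Finset.mem_image, Finset.mem_filter, Multiset.mem_toFinset, mem_roots',
    IsRoot.def] at hz
  obtain ⟨y, ⟨⟨_, hy⟩, hy0⟩, rfl⟩ := hz
  simp only [Multiset.mem_toFinset, Multiset.mem_filter]
  refine ⟨?_, ?_, ?_, ?_⟩
  · unfold croots
    rw [mem_roots (map_ne_zero' hG), IsRoot.def, eval_map_ofReal, hy]; simp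
  · exact_mod_cast hy0.ne'
  · rw [arg_ofReal_of_nonneg hy0.le]; linarith
  · rw [arg_ofReal_of_nonneg hy0.le]; exact hθ.le

/-! ### one root -/

/-- the root seen from the ray -/
def wz (θ : ℝ) (z : ℂ) : ℂ := z * exp (-((θ : ℂ) * I))

open Classical in
/-- the phase contributed by the root `z` at the point `y` of the ray -/
def ph (θ : ℝ) (z : ℂ) (y : ℝ) : ℝ :=
  if -(wz θ z) ∈ slitPlane then arg ((y : ℂ) - wz θ z) else 0

open Classical in
/-- the real factor contributed by the root `z` at the point `y` of the ray -/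
def rr (θ : ℝ) (z : ℂ) (y : ℝ) : ℝ :=
  if -(wz θ z) ∈ slitPlane then ‖(y : ℂ) - wz θ z‖ else y - (wz θ z).re

lemma sub_mem_slit {w : ℂ} (hw : -w ∈ slitPlane) {y : ℝ} (hy : 0 ≤ y) :
    (y : ℂ) - w ∈ slitPlane := by
  rw [mem_slitPlane_iff] at hw ⊢
  simp only [neg_re, neg_im, sub_re, ofReal_re, sub_im, ofReal_im, zero_sub] at *
  rcases hw with h | h
  · left; linarith
  · right; exact h

lemma polar (θ : ℝ) (z : ℂ) (y : ℝ) :
    (y : ℂ) - wz θ z = (rr θ z y : ℂ) * exp ((ph θ z y : ℂ) * I) := by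
  unfold rr ph
  split_ifs with h
  · rw [norm_mul_exp_arg_mul_I]
  · rw [mem_slitPlane_iff] at h
    push Not at h
    simp only [neg_re, neg_im, neg_eq_zero] at h
    apply Complex.ext
    · simp
    · simp [h.2]

lemma ph_cont (θ : ℝ) (z : ℂ) : ContinuousOn (ph θ z) (Set.Ici 0) := by
  unfold ph
  split_ifs with h
  · intro y hy
    apply ContinuousAt.continuousWithinAt
    have h1 := continuousAt_arg (sub_mem_slit h hy)
    exact ContinuousAt.comp (f := fun y : ℝ => (y : ℂ) - wz θ z) h1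
      ((continuous_ofReal.sub continuous_const).continuousAt)
  · exact continuousOn_const

lemma ph_lim (θ : ℝ) (z : ℂ) : Tendsto (ph θ z) atTop (𝓝 0) := by
  unfold ph
  split_ifs with h
  · have h1 : Tendsto (fun y : ℝ => arg (1 - wz θ z / (y : ℂ))) atTop (𝓝 0) := by
      have h2 : ContinuousAt arg (1 : ℂ) := continuousAt_arg one_mem_slitPlane
      have h3 : Tendsto (fun y : ℝ => 1 - wz θ z / (y : ℂ)) atTop (𝓝 1) := by
        have h4 : Tendsto (fun y : ℝ => ((y⁻¹ : ℝ) : ℂ)) atTop (𝓝 ((0 : ℝ) : ℂ)) :=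
          (continuous_ofReal.tendsto 0).comp tendsto_inv_atTop_zero
        have h5 := (h4.const_mul (wz θ z)).const_sub 1
        simp only [ofReal_zero, mul_zero, sub_zero] at h5
        refine h5.congr fun y => ?_
        rw [div_eq_mul_inv]; push_cast; rfl
      have h6 := h2.tendsto.comp h3
      rw [arg_one] at h6
      exact h6
    refine h1.congr' ?_
    filter_upwards [eventually_gt_atTop 0] with y hy
    have : (y : ℂ) - wz θ z = (y : ℂ) * (1 - wz θ z / (y : ℂ)) := by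
      have : (y : ℂ) ≠ 0 := by exact_mod_cast hy.ne'
      field_simp
    rw [this, arg_real_mul _ hy]
  · exact tendsto_const_nhds

lemma neg_wz_eq (θ : ℝ) (z : ℂ) (s : ℝ) (hs : s = Real.pi ∨ s = -Real.pi) :
    -(wz θ z) = (‖z‖ : ℂ) * (cos ((arg z - θ + s : ℝ) : ℂ) + sin ((arg z - θ + s : ℝ) : ℂ) * I) := by
  rw [← exp_mul_I]
  unfold wz
  have h1 : exp ((s : ℂ) * I) = -1 := by
    rcases hs with rfl | rfl
    · exact exp_pi_mul_I
    · push_cast
      rw [neg_mul, exp_neg, exp_pi_mul_I]; norm_num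
  have h2 : (((arg z - θ + s : ℝ) : ℂ)) * I = (arg z : ℂ) * I + (-((θ : ℂ) * I)) + (s : ℂ) * I := by
    push_cast; ring
  rw [h2, exp_add, exp_add, h1]
  conv_lhs => rw [← norm_mul_exp_arg_mul_I z]
  ring

lemma ph_zero_lt {θ : ℝ} (hπ : θ < Real.pi) {z : ℂ} (hz : z ≠ 0)
    (h : arg z < θ) : ph θ z 0 = arg z - θ + Real.pi := by
  have hn : 0 < ‖z‖ := norm_pos_iff.2 hz
  have hp := Real.pi_pos
  have h1 := neg_pi_lt_arg z
  have h2 : arg (-(wz θ z)) = arg z - θ + Real.pi := by
    rw [neg_wz_eq θ z Real.pi (Or.inl rfl)]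
    exact arg_mul_cos_add_sin_mul_I hn ⟨by linarith, by linarith⟩
  have h3 : -(wz θ z) ∈ slitPlane := by
    rw [mem_slitPlane_iff_arg]
    refine ⟨by rw [h2]; intro h4; linarith, ?_⟩
    unfold wz
    rw [neg_ne_zero]
    exact mul_ne_zero hz (exp_ne_zero _)
  unfold ph
  rw [if_pos h3, ofReal_zero, zero_sub, h2]

lemma ph_zero_gt {θ : ℝ} (h0 : 0 < θ) {z : ℂ} (hz : z ≠ 0)
    (h : θ < arg z) : ph θ z 0 = arg z - θ - Real.pi := by
  have hn : 0 < ‖z‖ := norm_pos_iff.2 hz
  have hp := Real.pi_pos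
  have h1 := arg_le_pi z
  have h2 : arg (-(wz θ z)) = arg z - θ - Real.pi := by
    rw [neg_wz_eq θ z (-Real.pi) (Or.inr rfl), sub_eq_add_neg (arg z - θ)]
    exact arg_mul_cos_add_sin_mul_I hn ⟨by linarith, by linarith⟩
  have h3 : -(wz θ z) ∈ slitPlane := by
    rw [mem_slitPlane_iff_arg]
    refine ⟨by rw [h2]; intro h4; linarith, ?_⟩
    unfold wz
    rw [neg_ne_zero]
    exact mul_ne_zero hz (exp_ne_zero _)
  unfold ph
  rw [if_pos h3, ofReal_zero, zero_sub, h2]

lemma ph_zero_eq {θ : ℝ} {z : ℂ} (hz : z ≠ 0) (h : arg z = θ) (y : ℝ) : ph θ z y = 0 := by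
  have hn : 0 < ‖z‖ := norm_pos_iff.2 hz
  have hp := Real.pi_pos
  have h2 : arg (-(wz θ z)) = Real.pi := by
    rw [neg_wz_eq θ z Real.pi (Or.inl rfl)]
    rw [arg_mul_cos_add_sin_mul_I hn ⟨by linarith, by linarith⟩]
    linarith
  have h3 : ¬ -(wz θ z) ∈ slitPlane := by
    rw [mem_slitPlane_iff_arg]
    rintro ⟨h4, _⟩
    exact h4 h2
  unfold ph
  rw [if_neg h3]

lemma ph_zero (θ : ℝ) (y : ℝ) : ph θ 0 y = 0 := by
  have h3 : ¬ -(wz θ 0) ∈ slitPlane := by
    unfold wz; simp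
  unfold ph
  rw [if_neg h3]

open Classical in
/-- indicator of the sector -/
def ins (θ : ℝ) (z : ℂ) : ℝ := if InSec θ z then 1 else 0

open Classical in
/-- indicator of the nonzero numbers -/
def nz (z : ℂ) : ℝ := if z ≠ 0 then 1 else 0

lemma ph_pair {θ : ℝ} (h0 : 0 < θ) (hπ : θ < Real.pi) (z : ℂ) :
    ph θ z 0 + ph θ (starRingEnd ℂ z) 0 =
      Real.pi * (ins θ z + ins θ (starRingEnd ℂ z)) - θ * (nz z + nz (starRingEnd ℂ z)) := by
  have hp := Real.pi_pos
  by_cases hz : z = 0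
  · subst hz
    simp [ph_zero, ins, nz, InSec]
  have hz' : starRingEnd ℂ z ≠ 0 := by simpa using hz
  have hnz : nz z = 1 := by unfold nz; rw [if_pos hz]
  have hnz' : nz (starRingEnd ℂ z) = 1 := by unfold nz; rw [if_pos hz']
  rw [hnz, hnz']
  have hc := arg_conj z
  have h1 := neg_pi_lt_arg z
  have h2 := arg_le_pi z
  have in1 : ∀ x : ℂ, x ≠ 0 → -θ < arg x → arg x ≤ θ → ins θ x = 1 := by
    intro x hx ha hb
    unfold ins; rw [if_pos ⟨hx, ha, hb⟩]
  have out1 : ∀ x : ℂ, arg x ≤ -θ → ins θ x = 0 := by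
    intro x ha
    unfold ins; rw [if_neg]
    rintro ⟨_, h, _⟩; linarith
  have out2 : ∀ x : ℂ, θ < arg x → ins θ x = 0 := by
    intro x ha
    unfold ins; rw [if_neg]
    rintro ⟨_, _, h⟩; linarith
  by_cases hpi : arg z = Real.pi
  · rw [if_pos hpi] at hc
    rw [ph_zero_gt h0 hz (by linarith), ph_zero_gt h0 hz' (by linarith), out2 z (by linarith),
      out2 _ (by linarith), hpi, hc]
    ring
  rw [if_neg hpi] at hc
  rcases lt_trichotomy (arg z) θ with hlt | heq | hgt
  · rcases lt_trichotomy (arg z) (-θ) with hlt' | heq' | hgt'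
    · rw [ph_zero_lt hπ hz hlt, ph_zero_gt h0 hz' (by linarith), out1 z (by linarith),
        out2 _ (by linarith), hc]
      ring
    · rw [ph_zero_lt hπ hz hlt, ph_zero_eq hz' (by linarith), out1 z (by linarith),
        in1 _ hz' (by linarith) (by linarith), heq']
      ring
    · rw [ph_zero_lt hπ hz hlt, ph_zero_lt hπ hz' (by linarith), in1 z hz (by linarith)
        (by linarith), in1 _ hz' (by linarith) (by linarith), hc]
      ring
  · rw [ph_zero_eq hz heq, ph_zero_lt hπ hz' (by linarith), in1 z hz (by linarith)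
      (by linarith), out1 _ (by linarith), hc, heq]
    ring
  · rw [ph_zero_gt h0 hz hgt, ph_zero_lt hπ hz' (by linarith), out2 z (by linarith),
      out1 _ (by linarith), hc]
    ring

/-! ### all roots -/

/-- the phase of a polynomial on the ray -/
def Ph (θ : ℝ) (G : ℝ[X]) (y : ℝ) : ℝ := ((croots G).map (fun z => ph θ z y)).sum

/-- the real factor of a polynomial on the ray -/
def Rr (θ : ℝ) (G : ℝ[X]) (y : ℝ) : ℝ :=
  G.leadingCoeff * ((croots G).map (fun z => rr θ z y)).prod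

/-- the number of nonzero roots -/
def nzc (G : ℝ[X]) : ℕ := ((croots G).filter (fun z => z ≠ 0)).card

lemma sum_ind (p : ℂ → Prop) [DecidablePred p] (s : Multiset ℂ) :
    (s.map (fun z => if p z then (1 : ℝ) else 0)).sum = (s.filter p).card := by
  induction s using Multiset.induction_on with
  | empty => simp
  | cons a s ih =>
    rw [Multiset.map_cons, Multiset.sum_cons, ih, Multiset.filter_cons]
    split_ifs <;> simp [add_comm]

lemma sum_ins (θ : ℝ) (G : ℝ[X]) : ((croots G).map (ins θ)).sum = sec θ G := by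
  classical
  unfold sec ins
  exact sum_ind _ _

lemma sum_nz (G : ℝ[X]) : ((croots G).map nz).sum = nzc G := by
  classical
  unfold nzc nz
  convert sum_ind (fun z => z ≠ 0) (croots G) using 3

lemma sum_conj (G : ℝ[X]) (f : ℂ → ℝ) :
    ((croots G).map (fun z => f (starRingEnd ℂ z))).sum = ((croots G).map f).sum := by
  conv_rhs => rw [← croots_conj G]
  rw [Multiset.map_map]
  rfl

lemma Ph_zero {θ : ℝ} (h0 : 0 < θ) (hπ : θ < Real.pi) (G : ℝ[X]) :
    Ph θ G 0 = Real.pi * sec θ G - θ * nzc G := by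
  have h1 : Ph θ G 0 + Ph θ G 0 =
      ((croots G).map (fun z => ph θ z 0 + ph θ (starRingEnd ℂ z) 0)).sum := by
    rw [Multiset.sum_map_add]
    congr 1
    rw [sum_conj G (fun z => ph θ z 0)]
    rfl
  have h2 : ((croots G).map (fun z => ph θ z 0 + ph θ (starRingEnd ℂ z) 0)).sum =
      Real.pi * (sec θ G + sec θ G) - θ * (nzc G + nzc G) := by
    rw [Multiset.map_congr rfl (fun z _ => ph_pair h0 hπ z)]
    have e1 : ∀ s : Multiset ℂ, (s.map (fun z => Real.pi * (ins θ z + ins θ (starRingEnd ℂ z))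
        - θ * (nz z + nz (starRingEnd ℂ z)))).sum =
        Real.pi * ((s.map (ins θ)).sum + (s.map (fun z => ins θ (starRingEnd ℂ z))).sum) -
        θ * ((s.map nz).sum + (s.map (fun z => nz (starRingEnd ℂ z))).sum) := by
      intro s
      induction s using Multiset.induction_on with
      | empty => simp
      | cons a s ih =>
        simp only [Multiset.map_cons, Multiset.sum_cons] at *
        rw [ih]; ring
    rw [e1, sum_conj, sum_conj, sum_ins, sum_nz]
  linarith

lemma nzc_le (G : ℝ[X]) : nzc G ≤ G.natDegree := by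
  classical
  rw [← card_croots]
  exact Multiset.card_le_card (Multiset.filter_le _ _)

lemma zero_mem_croots {G : ℝ[X]} (h : (0 : ℂ) ∈ croots G) : G.eval 0 = 0 := by
  unfold croots at h
  rw [mem_roots', IsRoot.def] at h
  have h2 := eval_map_ofReal G 0
  rw [ofReal_zero, h.2] at h2
  exact_mod_cast h2.symm

lemma nzc_eq {G : ℝ[X]} (h0 : G.eval 0 ≠ 0) : nzc G = G.natDegree := by
  classical
  rw [← card_croots]
  unfold nzc
  congr 1
  rw [Multiset.filter_eq_self]
  intro z hz h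
  subst h
  exact h0 (zero_mem_croots hz)

lemma Ph_cont (θ : ℝ) (G : ℝ[X]) : ContinuousOn (Ph θ G) (Set.Ici 0) :=
  continuousOn_multiset_sum _ fun z _ => ph_cont θ z

lemma Ph_lim (θ : ℝ) (G : ℝ[X]) : Tendsto (Ph θ G) atTop (𝓝 0) := by
  have h := tendsto_multiset_sum (f := ph θ) (x := atTop) (a := fun _ => (0 : ℝ)) (croots G)
    (fun z _ => ph_lim θ z)
  have e : Ph θ G = fun y => ((croots G).map (fun z => ph θ z y)).sum := rfl
  rw [e]
  simpa using h

/-- polar form of the values on the ray -/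
lemma eval_ray (θ : ℝ) (G : ℝ[X]) (y : ℝ) :
    (G.map ofRealHom).eval ((y : ℂ) * exp ((θ : ℂ) * I)) =
      (Rr θ G y : ℂ) * exp (((G.natDegree * θ + Ph θ G y : ℝ) : ℂ) * I) := by
  rw [(IsAlgClosed.splits (G.map ofRealHom)).eval_eq_prod_roots]
  have hl : (G.map ofRealHom).leadingCoeff = (G.leadingCoeff : ℂ) := by
    rw [leadingCoeff_map]; rfl
  have hp : ∀ s : Multiset ℂ, (s.map (fun z => (y : ℂ) * exp ((θ : ℂ) * I) - z)).prod =
      (((s.map (fun z => rr θ z y)).prod : ℝ) : ℂ) *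
        exp (((s.card * θ + (s.map (fun z => ph θ z y)).sum : ℝ) : ℂ) * I) := by
    intro s
    induction s using Multiset.induction_on with
    | empty => simp
    | cons a s ih =>
      rw [Multiset.map_cons, Multiset.prod_cons, ih]
      have h1 : (y : ℂ) * exp ((θ : ℂ) * I) - a =
          exp ((θ : ℂ) * I) * ((y : ℂ) - wz θ a) := by
        unfold wz
        have : exp ((θ : ℂ) * I) * exp (-((θ : ℂ) * I)) = 1 := by
          rw [← exp_add]; simp
        linear_combination a * this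
      rw [h1, polar]
      simp only [Multiset.map_cons, Multiset.prod_cons, Multiset.sum_cons, Multiset.card_cons]
      push_cast
      have h2 : (((s.card : ℂ) + 1) * (θ : ℂ) +
          ((ph θ a y : ℂ) + ((s.map (fun z => ph θ z y)).sum : ℝ))) * I =
          (θ : ℂ) * I + (ph θ a y : ℂ) * I +
          ((s.card : ℂ) * θ + ((s.map (fun z => ph θ z y)).sum : ℝ)) * I := by ring
      rw [h2, exp_add, exp_add]
      ring
  rw [hl]
  have h3 := hp (croots G)
  rw [card_croots] at h3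
  unfold croots at h3
  rw [h3]
  unfold Rr Ph croots
  push_cast
  ring

lemma Rr_ne_zero {θ : ℝ} {G : ℝ[X]} {y : ℝ}
    (h : (G.map ofRealHom).eval ((y : ℂ) * exp ((θ : ℂ) * I)) ≠ 0) : Rr θ G y ≠ 0 := by
  intro h1
  rw [eval_ray, h1] at h
  simp at h

lemma finite_ray (θ : ℝ) {G : ℝ[X]} (hG : G ≠ 0) :
    {y : ℝ | (G.map ofRealHom).eval ((y : ℂ) * exp ((θ : ℂ) * I)) = 0}.Finite := by
  have h1 := Polynomial.finite_setOfPred_isRoot (map_ne_zero' hG)
  refine Set.Finite.preimage (f := fun y : ℝ => (y : ℂ) * exp ((θ : ℂ) * I)) ?_ h1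
  intro a _ b _ hab
  have := mul_right_cancel₀ (exp_ne_zero _) hab
  exact_mod_cast this

/-- **The phase lemma.** -/
theorem sec_le {θ b : ℝ} (h0 : 0 < θ) (hπ : θ < Real.pi) (hb0 : 0 ≤ b) (hb : b < Real.pi)
    {P Q W : ℝ[X]} (hP : P ≠ 0) (hQ : Q.eval 0 ≠ 0) (hdeg : P.natDegree ≤ Q.natDegree)
    (hW : ∀ y : ℝ, W.eval y = (exp ((b : ℂ) * I) *
      (P.map ofRealHom).eval ((y : ℂ) * exp ((θ : ℂ) * I)) *
      starRingEnd ℂ ((Q.map ofRealHom).eval ((y : ℂ) * exp ((θ : ℂ) * I)))).im) :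
    sec θ P ≤ sec θ Q + pos W + 1 := by
  classical
  have hp := Real.pi_pos
  have hQ0 : Q ≠ 0 := by rintro rfl; simp at hQ
  set Ψ : ℝ → ℝ := fun y => b + ((P.natDegree : ℝ) - Q.natDegree) * θ + Ph θ P y - Ph θ Q y
    with hΨ
  have hWy : ∀ y : ℝ, W.eval y = Rr θ P y * Rr θ Q y * Real.sin (Ψ y) := by
    intro y
    rw [hW, eval_ray, eval_ray, map_mul, conj_ofReal, ← exp_conj, map_mul, conj_ofReal, conj_I]
    have h1 : exp ((b : ℂ) * I) * ((Rr θ P y : ℂ) *
        exp (((P.natDegree * θ + Ph θ P y : ℝ) : ℂ) * I)) * ((Rr θ Q y : ℂ) *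
        exp (((Q.natDegree * θ + Ph θ Q y : ℝ) : ℂ) * -I)) =
        ((Rr θ P y * Rr θ Q y : ℝ) : ℂ) * exp ((Ψ y : ℂ) * I) := by
      have h2 : ((Ψ y : ℝ) : ℂ) * I = (b : ℂ) * I + ((P.natDegree * θ + Ph θ P y : ℝ) : ℂ) * I +
          ((Q.natDegree * θ + Ph θ Q y : ℝ) : ℂ) * -I := by
        rw [hΨ]; push_cast; ring
      rw [h2, exp_add, exp_add]
      push_cast
      ring
    rw [h1, im_ofReal_mul, exp_ofReal_mul_I_im]
  have hΨ0 : b + Real.pi * ((sec θ P : ℝ) - sec θ Q) ≤ Ψ 0 := by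
    have h1 : Ψ 0 = b + ((P.natDegree : ℝ) - Q.natDegree) * θ + Ph θ P 0 - Ph θ Q 0 := rfl
    rw [h1, Ph_zero h0 hπ, Ph_zero h0 hπ, nzc_eq hQ]
    have h2 : (nzc P : ℝ) ≤ P.natDegree := by exact_mod_cast nzc_le P
    nlinarith
  have hΨc : ContinuousOn Ψ (Set.Ici 0) :=
    (continuousOn_const.add (Ph_cont θ P)).sub (Ph_cont θ Q)
  have hlim : Tendsto Ψ atTop (𝓝 (b + ((P.natDegree : ℝ) - Q.natDegree) * θ + 0 - 0)) :=
    (tendsto_const_nhds.add (Ph_lim θ P)).sub (Ph_lim θ Q)
  have hlt : b + ((P.natDegree : ℝ) - Q.natDegree) * θ + 0 - 0 < Real.pi := by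
    have : (P.natDegree : ℝ) ≤ Q.natDegree := by exact_mod_cast hdeg
    nlinarith
  obtain ⟨Y, hY, hY0⟩ := ((hlim.eventually (gt_mem_nhds hlt)).and (eventually_gt_atTop 0)).exists
  have hivt : Set.Ioo (Ψ Y) (Ψ 0) ⊆ Ψ '' Set.Ioo 0 Y :=
    intermediate_value_Ioo' hY0.le (hΨc.mono fun y hy => hy.1)
  by_contra hcon
  push Not at hcon
  have hK : (sec θ Q : ℝ) + pos W + 2 ≤ sec θ P := by exact_mod_cast hcon
  have hW0 : W ≠ 0 := by
    rintro rfl
    have hS : {y : ℝ | 0 < y ∧ Ψ y ∈ Set.Ioo Real.pi (2 * Real.pi)}.Infinite := by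
      intro hfin
      have h2 : Set.Ioo Real.pi (2 * Real.pi) ⊆
          Ψ '' {y : ℝ | 0 < y ∧ Ψ y ∈ Set.Ioo Real.pi (2 * Real.pi)} := by
        intro t ht
        have h3 : t ∈ Set.Ioo (Ψ Y) (Ψ 0) := by
          refine ⟨lt_trans hY ht.1, lt_of_lt_of_le ht.2 (le_trans ?_ hΨ0)⟩
          have : (0 : ℝ) ≤ pos (0 : ℝ[X]) := Nat.cast_nonneg _
          nlinarith
        obtain ⟨y, hy, rfl⟩ := hivt h3
        exact ⟨y, ⟨hy.1, ht⟩, rfl⟩
      exact (Set.Ioo_infinite (by linarith)) ((hfin.image Ψ).subset h2)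
    have hZ : ({y : ℝ | (P.map ofRealHom).eval ((y : ℂ) * exp ((θ : ℂ) * I)) = 0} ∪
        {y : ℝ | (Q.map ofRealHom).eval ((y : ℂ) * exp ((θ : ℂ) * I)) = 0}).Finite :=
      (finite_ray θ hP).union (finite_ray θ hQ0)
    obtain ⟨y, hy, hyZ⟩ := (hS.sdiff hZ).nonempty
    simp only [Set.mem_union, Set.mem_ofPred_eq, not_or] at hyZ
    have h4 := hWy y
    simp only [eval_zero] at h4
    have h5 : Real.sin (Ψ y) ≠ 0 := by
      have : Real.sin (Ψ y) < 0 := by
        have h6 : Real.sin (Ψ y) = - Real.sin (Ψ y - Real.pi) := by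
          rw [Real.sin_sub_pi]; ring
        rw [h6, neg_lt_zero]
        exact Real.sin_pos_of_pos_of_lt_pi (by linarith [hy.2.1]) (by linarith [hy.2.2])
      exact this.ne
    exact (mul_ne_zero (mul_ne_zero (Rr_ne_zero hyZ.1) (Rr_ne_zero hyZ.2)) h5) h4.symm
  have hex : ∀ j : ℕ, j < pos W + 1 → ∃ y : ℝ, 0 < y ∧ Ψ y = (j + 1 : ℕ) * Real.pi := by
    intro j hj
    have h3 : ((j + 1 : ℕ) : ℝ) * Real.pi ∈ Set.Ioo (Ψ Y) (Ψ 0) := by
      have h4 : (j : ℝ) ≤ pos W := by exact_mod_cast Nat.lt_succ_iff.1 hj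
      have h5 : (0 : ℝ) ≤ j := Nat.cast_nonneg _
      refine ⟨lt_of_lt_of_le hY ?_, lt_of_lt_of_le ?_ hΨ0⟩
      · push_cast; nlinarith
      · push_cast; nlinarith
    obtain ⟨y, hy, hyy⟩ := hivt h3
    exact ⟨y, hy.1, hyy⟩
  choose! f hf0 hf using hex
  have hcard : (Finset.range (pos W + 1)).card ≤ (W.roots.toFinset.filter (fun y => 0 < y)).card := by
    refine Finset.card_le_card_of_injOn f ?_ ?_
    · intro j hj
      have hj' : j < pos W + 1 := by simpa using hj
      simp only [Finset.coe_filter, Multiset.mem_toFinset, Set.mem_ofPred_eq]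
      refine ⟨?_, hf0 j hj'⟩
      rw [mem_roots hW0, IsRoot.def, hWy, hf j hj', Real.sin_nat_mul_pi, mul_zero]
    · intro i hi j hj hij
      have hi' : i < pos W + 1 := by simpa using hi
      have hj' : j < pos W + 1 := by simpa using hj
      have h1 := hf i hi'
      have h2 := hf j hj'
      rw [hij, h2] at h1
      have h3 := mul_right_cancel₀ hp.ne' h1
      have h4 : j + 1 = i + 1 := by exact_mod_cast h3
      omega
  rw [Finset.card_range] at hcard
  have : pos W = (W.roots.toFinset.filter (fun y => 0 < y)).card := rfl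
  omega

end

end Pool.Agent.T9h48
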