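import Pool.Agent.T9h48.Phase

/-!
# The phase lemma without assumptions on degrees
-/

open Polynomial Complex Filter Topology

namespace Pool.Agent.T9h48

noncomputable section

/-- **The phase lemma**, general form. -/
theorem sec_le_gen {θ b : ℝ} (h0 : 0 < θ) (hπ : θ < Real.pi)
    {P Q W : ℝ[X]} (hP : P ≠ 0) (hQ0 : Q ≠ 0)
    (hW : ∀ y : ℝ, W.eval y = (exp ((b : ℂ) * I) *
      (P.map ofRealHom).eval ((y : ℂ) * exp ((θ : ℂ) * I)) *
      starRingEnd ℂ ((Q.map ofRealHom).eval ((y : ℂ) * exp ((θ : ℂ) * I)))).im) :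
    (sec θ P : ℝ) ≤ sec θ Q + ((nzc P : ℝ) - nzc Q) * (θ / Real.pi) + pos W + 1 := by
  classical
  have hp := Real.pi_pos
  set a : ℝ := b + ((P.natDegree : ℝ) - Q.natDegree) * θ with ha
  set Ψ : ℝ → ℝ := fun y => a + Ph θ P y - Ph θ Q y with hΨ
  have hWy : ∀ y : ℝ, W.eval y = Rr θ P y * Rr θ Q y * Real.sin (Ψ y) := by
    intro y
    rw [hW, eval_ray, eval_ray, map_mul, conj_ofReal, ← exp_conj, map_mul, conj_ofReal, conj_I]
    have h1 : exp ((b : ℂ) * I) * ((Rr θ P y : ℂ) *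
        exp (((P.natDegree * θ + Ph θ P y : ℝ) : ℂ) * I)) * ((Rr θ Q y : ℂ) *
        exp (((Q.natDegree * θ + Ph θ Q y : ℝ) : ℂ) * -I)) =
        ((Rr θ P y * Rr θ Q y : ℝ) : ℂ) * exp ((Ψ y : ℂ) * I) := by
      have h2 : ((Ψ y : ℝ) : ℂ) * I = (b : ℂ) * I + ((P.natDegree * θ + Ph θ P y : ℝ) : ℂ) * I +
          ((Q.natDegree * θ + Ph θ Q y : ℝ) : ℂ) * -I := by
        rw [hΨ, ha]; push_cast; ring
      rw [h2, exp_add, exp_add]
      push_cast
      ring
    rw [h1, im_ofReal_mul, exp_ofReal_mul_I_im]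
  have hΨ0 : Ψ 0 = a + (Real.pi * ((sec θ P : ℝ) - sec θ Q) - θ * ((nzc P : ℝ) - nzc Q)) := by
    have h1 : Ψ 0 = a + Ph θ P 0 - Ph θ Q 0 := rfl
    rw [h1, Ph_zero h0 hπ, Ph_zero h0 hπ]
    ring
  have hΨc : ContinuousOn Ψ (Set.Ici 0) :=
    (continuousOn_const.add (Ph_cont θ P)).sub (Ph_cont θ Q)
  have hlim : Tendsto Ψ atTop (𝓝 (a + 0 - 0)) :=
    (tendsto_const_nhds.add (Ph_lim θ P)).sub (Ph_lim θ Q)
  rw [add_zero, sub_zero] at hlim
  by_contra hcon
  push Not at hcon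
  have hδ : a + Real.pi * (pos W + 1) < Ψ 0 := by
    rw [hΨ0]
    have h1 : Real.pi * (sec θ Q + ((nzc P : ℝ) - nzc Q) * (θ / Real.pi) + pos W + 1) <
        Real.pi * sec θ P := mul_lt_mul_of_pos_left hcon hp
    have h2 : Real.pi * (((nzc P : ℝ) - nzc Q) * (θ / Real.pi)) = ((nzc P : ℝ) - nzc Q) * θ := by
      field_simp
    nlinarith
  set n0 : ℤ := ⌊a / Real.pi⌋ + 1 with hn0
  have hn1 : a < n0 * Real.pi := by
    have := Int.lt_floor_add_one (a / Real.pi)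
    rw [div_lt_iff₀ hp] at this
    rw [hn0]; push_cast; exact this
  have hn2 : n0 * Real.pi ≤ a + Real.pi := by
    have := Int.floor_le (a / Real.pi)
    rw [le_div_iff₀ hp] at this
    rw [hn0]; push_cast; linarith
  obtain ⟨Y, hY, hY0⟩ := ((hlim.eventually (gt_mem_nhds hn1)).and (eventually_gt_atTop 0)).exists
  have hivt : Set.Ioo (Ψ Y) (Ψ 0) ⊆ Ψ '' Set.Ioo 0 Y :=
    intermediate_value_Ioo' hY0.le (hΨc.mono fun y hy => hy.1)
  have hpW : (0 : ℝ) ≤ pos W := Nat.cast_nonneg _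
  have hW0 : W ≠ 0 := by
    intro hWz
    have hpW0 : pos W = 0 := by rw [hWz]; simp [pos]
    rw [hpW0] at hδ
    simp only [Nat.cast_zero, zero_add, mul_one] at hδ
    set c : ℝ := min (Ψ 0) ((n0 + 1) * Real.pi) with hc
    have hc1 : n0 * Real.pi < c := by
      rw [hc, lt_min_iff]
      exact ⟨by linarith, by nlinarith⟩
    have hS : {y : ℝ | 0 < y ∧ Ψ y ∈ Set.Ioo (n0 * Real.pi) c}.Infinite := by
      intro hfin
      have h2 : Set.Ioo (n0 * Real.pi) c ⊆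
          Ψ '' {y : ℝ | 0 < y ∧ Ψ y ∈ Set.Ioo (n0 * Real.pi) c} := by
        intro t ht
        have h3 : t ∈ Set.Ioo (Ψ Y) (Ψ 0) :=
          ⟨lt_trans hY ht.1, lt_of_lt_of_le ht.2 (min_le_left _ _)⟩
        obtain ⟨y, hy, rfl⟩ := hivt h3
        exact ⟨y, ⟨hy.1, ht⟩, rfl⟩
      exact (Set.Ioo_infinite hc1) ((hfin.image Ψ).subset h2)
    have hZ : ({y : ℝ | (P.map ofRealHom).eval ((y : ℂ) * exp ((θ : ℂ) * I)) = 0} ∪
        {y : ℝ | (Q.map ofRealHom).eval ((y : ℂ) * exp ((θ : ℂ) * I)) = 0}).Finite :=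
      (finite_ray θ hP).union (finite_ray θ hQ0)
    obtain ⟨y, hy, hyZ⟩ := (hS.sdiff hZ).nonempty
    simp only [Set.mem_union, Set.mem_ofPred_eq, not_or] at hyZ
    have h4 := hWy y
    rw [hWz] at h4
    simp only [eval_zero] at h4
    have h5 : Real.sin (Ψ y) ≠ 0 := by
      intro hs
      rw [Real.sin_eq_zero_iff] at hs
      obtain ⟨n, hn⟩ := hs
      have h6 := hy.2.1
      have h7 : Ψ y < (n0 + 1) * Real.pi := lt_of_lt_of_le hy.2.2 (min_le_right _ _)
      rw [← hn] at h6 h7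
      have h8 : (n0 : ℝ) < n := lt_of_mul_lt_mul_right h6 hp.le
      have h9 : (n : ℝ) < n0 + 1 := lt_of_mul_lt_mul_right h7 hp.le
      have h10 : n0 < n := by exact_mod_cast h8
      have h11 : n < n0 + 1 := by exact_mod_cast h9
      omega
    exact (mul_ne_zero (mul_ne_zero (Rr_ne_zero hyZ.1) (Rr_ne_zero hyZ.2)) h5) h4.symm
  have hex : ∀ j : ℕ, j < pos W + 1 → ∃ y : ℝ, 0 < y ∧ Ψ y = ((n0 + j : ℤ) : ℝ) * Real.pi := by
    intro j hj
    have h3 : ((n0 + j : ℤ) : ℝ) * Real.pi ∈ Set.Ioo (Ψ Y) (Ψ 0) := by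
      have h4 : (j : ℝ) ≤ pos W := by exact_mod_cast Nat.lt_succ_iff.1 hj
      have h5 : (0 : ℝ) ≤ j := Nat.cast_nonneg _
      refine ⟨lt_of_lt_of_le hY ?_, lt_of_le_of_lt ?_ hδ⟩
      · push_cast; nlinarith
      · push_cast; nlinarith
    obtain ⟨y, hy, hyy⟩ := hivt h3
    exact ⟨y, hy.1, hyy⟩
  choose! f hf0 hf using hex
  have hcard : (Finset.range (pos W + 1)).card ≤ (W.roots.toFinset.filter (fun y => 0 < y)).card := by
    refine Finset.card_le_card_of_injOn f ?_ ?_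
    · intro j hj
      have hj' : j < pos W + 1 := by simpa using hj
      simp only [Finset.coe_filter, Multiset.mem_toFinset, Set.mem_ofPred_eq]
      refine ⟨?_, hf0 j hj'⟩
      rw [mem_roots hW0, IsRoot.def, hWy, hf j hj', Real.sin_int_mul_pi, mul_zero]
    · intro i hi j hj hij
      have hi' : i < pos W + 1 := by simpa using hi
      have hj' : j < pos W + 1 := by simpa using hj
      have h1 := hf i hi'
      have h2 := hf j hj'
      rw [hij, h2] at h1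
      have h3 := mul_right_cancel₀ hp.ne' h1
      have h4 : n0 + (j : ℤ) = n0 + i := by exact_mod_cast h3
      omega
  rw [Finset.card_range] at hcard
  have : pos W = (W.roots.toFinset.filter (fun y => 0 < y)).card := rfl
  omega

/-! ### the number of nonzero roots -/

lemma nzc_mul {G H : ℝ[X]} (hG : G ≠ 0) (hH : H ≠ 0) : nzc (G * H) = nzc G + nzc H := by
  classical
  unfold nzc
  rw [croots_mul hG hH, Multiset.filter_add, Multiset.card_add]

end

end Pool.Agent.T9h48
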