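import Pool.Agent.T9h48.Phase

/-!
# Sums of rational functions of powers on a ray

For a finite family of exponents `e j` and real polynomials `P j`, `Q j` the polynomials `num` and
`den` are numerator and denominator of `∑ j, (P j / Q j) (x ^ e j)`.
-/

open Polynomial Complex Filter Topology

namespace Pool.Agent.T9h48

set_option linter.unusedSectionVars false

noncomputable section

variable {ι : Type*} [DecidableEq ι]

/-- common denominator of `∑ j ∈ S, (P j / Q j) (x ^ e j)` -/
def den (e : ι → ℕ) (Q : ι → ℝ[X]) (S : Finset ι) : ℝ[X] := ∏ j ∈ S, expand ℝ (e j) (Q j)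

/-- numerator of `∑ j ∈ S, (P j / Q j) (x ^ e j)` -/
def num (e : ι → ℕ) (P Q : ι → ℝ[X]) (S : Finset ι) : ℝ[X] :=
  ∑ j ∈ S, expand ℝ (e j) (P j) * ∏ i ∈ S.erase j, expand ℝ (e i) (Q i)

/-! ### positive roots -/

lemma pos_mul_le (G H : ℝ[X]) : pos (G * H) ≤ pos G + pos H := by
  classical
  by_cases h : G * H = 0
  · rw [h]; simp [pos]
  unfold pos
  rw [roots_mul h, Multiset.toFinset_add, Finset.filter_union]
  exact Finset.card_union_le _ _

lemma pos_zero : pos 0 = 0 := by simp [pos]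

lemma pos_C (a : ℝ) : pos (C a) = 0 := by simp [pos]

lemma pos_one : pos 1 = 0 := by simp [pos]

lemma pos_pow_le (G : ℝ[X]) (n : ℕ) : pos (G ^ n) ≤ pos G := by
  classical
  unfold pos
  apply Finset.card_le_card
  intro y
  simp only [Finset.mem_filter, Multiset.mem_toFinset]
  rintro ⟨h1, h2⟩
  refine ⟨?_, h2⟩
  rw [mem_roots', IsRoot.def, eval_pow] at h1
  rw [mem_roots', IsRoot.def]
  refine ⟨?_, eq_zero_of_pow_eq_zero h1.2⟩
  rintro rfl
  rcases Nat.eq_zero_or_pos n with h | h
  · subst h; simp at h1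
  · exact h1.1 (zero_pow h.ne')

lemma pos_le_natDegree (G : ℝ[X]) : pos G ≤ G.natDegree := by
  classical
  unfold pos
  exact ((Finset.card_filter_le _ _).trans (Multiset.toFinset_card_le _)).trans (card_roots' _)

lemma pos_expand_le {d : ℕ} (hd : 0 < d) (G : ℝ[X]) : pos (expand ℝ d G) ≤ pos G := by
  classical
  by_cases hG : G = 0
  · subst hG; simp [pos]
  unfold pos
  refine Finset.card_le_card_of_injOn (fun y => y ^ d) ?_ ?_
  · intro y hy
    simp only [Finset.coe_filter, Multiset.mem_toFinset, Set.mem_ofPred_eq, mem_roots',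
      IsRoot.def, expand_eval] at hy ⊢
    exact ⟨⟨hG, hy.1.2⟩, pow_pos hy.2 d⟩
  · intro a ha b hb hab
    simp only [Finset.coe_filter, Multiset.mem_toFinset, Set.mem_ofPred_eq] at ha hb
    exact (pow_left_inj₀ ha.2.le hb.2.le hd.ne').1 hab

lemma pos_den_le {e : ι → ℕ} {Q : ι → ℝ[X]} {S : Finset ι} (he : ∀ j ∈ S, 0 < e j) :
    pos (den e Q S) ≤ ∑ j ∈ S, (Q j).natDegree := by
  classical
  unfold den
  induction S using Finset.induction_on with
  | empty => simp [pos_one]
  | insert a S ha ih =>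
    rw [Finset.prod_insert ha, Finset.sum_insert ha]
    refine (pos_mul_le _ _).trans (add_le_add ?_ (ih fun j hj => he j (Finset.mem_insert_of_mem hj)))
    exact (pos_expand_le (he a (Finset.mem_insert_self _ _)) _).trans (pos_le_natDegree _)

/-! ### degrees -/

lemma den_ne_zero {e : ι → ℕ} {Q : ι → ℝ[X]} {S : Finset ι} (he : ∀ j ∈ S, 0 < e j)
    (hQ : ∀ j ∈ S, Q j ≠ 0) : den e Q S ≠ 0 := by
  unfold den
  rw [Finset.prod_ne_zero_iff]
  intro j hj
  exact (Polynomial.expand_ne_zero (he j hj)).2 (hQ j hj)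

lemma natDegree_den {e : ι → ℕ} {Q : ι → ℝ[X]} {S : Finset ι} (he : ∀ j ∈ S, 0 < e j)
    (hQ : ∀ j ∈ S, Q j ≠ 0) : (den e Q S).natDegree = ∑ j ∈ S, (Q j).natDegree * e j := by
  unfold den
  rw [natDegree_prod _ _ fun j hj => (Polynomial.expand_ne_zero (he j hj)).2 (hQ j hj)]
  exact Finset.sum_congr rfl fun j _ => natDegree_expand _ _

lemma natDegree_num_le {e : ι → ℕ} {P Q : ι → ℝ[X]} {S : Finset ι}
    (hPQ : ∀ j ∈ S, (P j).natDegree ≤ (Q j).natDegree) :
    (num e P Q S).natDegree ≤ ∑ j ∈ S, (Q j).natDegree * e j := by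
  classical
  unfold num
  apply natDegree_sum_le_of_forall_le
  intro j hj
  refine (natDegree_mul_le).trans ?_
  rw [← Finset.add_sum_erase S _ hj, natDegree_expand]
  refine add_le_add (Nat.mul_le_mul_right _ (hPQ j hj)) ?_
  refine (natDegree_prod_le _ _).trans ?_
  exact Finset.sum_le_sum fun i _ => (natDegree_expand _ _).le

lemma den_eval_zero {e : ι → ℕ} {Q : ι → ℝ[X]} {S : Finset ι} (he : ∀ j ∈ S, 0 < e j)
    (hQ : ∀ j ∈ S, (Q j).eval 0 ≠ 0) : (den e Q S).eval 0 ≠ 0 := by
  unfold den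
  rw [eval_prod, Finset.prod_ne_zero_iff]
  intro j hj
  rw [expand_eval, zero_pow (he j hj).ne']
  exact hQ j hj

/-! ### the number of roots in the sector -/

lemma sec_pow_sub {θ : ℝ} {d : ℕ} (hd : 0 < d) (hdθ : d * θ ≤ Real.pi) (w : ℂ) [DecidablePred (InSec θ)] :
    ((X ^ d - C w : ℂ[X]).roots.filter (InSec θ)).card ≤ 1 := by
  classical
  have hdr : (0 : ℝ) < d := by exact_mod_cast hd
  by_cases hw : w = 0
  · subst hw
    rw [C_0, sub_zero, roots_X_pow]
    have : (Multiset.filter (InSec θ) (d • {(0 : ℂ)})) = 0 := by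
      rw [Multiset.filter_eq_nil]
      intro z hz h
      rw [Multiset.mem_nsmul, Multiset.mem_singleton] at hz
      exact h.1 hz.2
    rw [this]; simp
  have hnd : ((X ^ d - C w : ℂ[X]).roots).Nodup :=
    (Complex.isPrimitiveRoot_exp d hd.ne').nthRoots_nodup hw
  rw [← Multiset.toFinset_card_of_nodup (hnd.filter _), Finset.card_le_one]
  have key : ∀ z ∈ (Multiset.filter (InSec θ) (X ^ d - C w : ℂ[X]).roots).toFinset,
      z ≠ 0 ∧ z ^ d = w ∧ arg w = d * arg z := by
    intro z hz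
    rw [Multiset.mem_toFinset, Multiset.mem_filter, mem_roots'] at hz
    obtain ⟨⟨_, h1⟩, h2, h3, h4⟩ := hz
    have h5 : z ^ d = w := by
      rw [IsRoot.def, eval_sub, eval_pow, eval_X, eval_C] at h1
      exact sub_eq_zero.1 h1
    refine ⟨h2, h5, ?_⟩
    have h6 : w = ((‖z‖ ^ d : ℝ) : ℂ) * (cos ((d * arg z : ℝ) : ℂ) + sin ((d * arg z : ℝ) : ℂ) * I) := by
      rw [← h5, ← exp_mul_I]
      conv_lhs => rw [← norm_mul_exp_arg_mul_I z, mul_pow, ← exp_nat_mul]
      push_cast
      rw [mul_assoc]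
    rw [h6]
    refine arg_mul_cos_add_sin_mul_I (pow_pos (norm_pos_iff.2 h2) d) ⟨?_, ?_⟩
    · nlinarith
    · nlinarith
  intro a ha b hb
  obtain ⟨ha0, ha1, ha2⟩ := key a ha
  obtain ⟨hb0, hb1, hb2⟩ := key b hb
  apply Complex.ext_norm_arg
  · have : ‖a‖ ^ d = ‖b‖ ^ d := by rw [← norm_pow, ← norm_pow, ha1, hb1]
    exact (pow_left_inj₀ (norm_nonneg _) (norm_nonneg _) hd.ne').1 this
  · have : (d : ℝ) * arg a = d * arg b := by rw [← ha2, ← hb2]
    exact mul_left_cancel₀ hdr.ne' this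

lemma sec_expand_le {θ : ℝ} {d : ℕ} (hd : 0 < d) (hdθ : d * θ ≤ Real.pi) {G : ℝ[X]} (hG : G ≠ 0) :
    sec θ (expand ℝ d G) ≤ G.natDegree := by
  classical
  unfold sec croots
  rw [Polynomial.map_expand]
  have h1 := (IsAlgClosed.splits (G.map ofRealHom)).eq_prod_roots
  have h2 : expand ℂ d (G.map ofRealHom) = C (G.map ofRealHom).leadingCoeff *
      ((G.map ofRealHom).roots.map (fun w => X ^ d - C w)).prod := by
    conv_lhs => rw [h1]
    rw [map_mul, expand_C, map_multiset_prod, Multiset.map_map]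
    congr 2
    apply Multiset.map_congr rfl
    intro w _
    simp
  have h3 : (G.map ofRealHom).leadingCoeff ≠ 0 := leadingCoeff_ne_zero.2 (map_ne_zero' hG)
  rw [h2, roots_C_mul _ h3]
  have hind : ∀ s : Multiset ℂ,
      (((s.map (fun w => X ^ d - C w : ℂ → ℂ[X])).prod).roots.filter (InSec θ)).card ≤ s.card := by
    intro s
    induction s using Multiset.induction_on with
    | empty => simp
    | cons a s ih =>
      rw [Multiset.map_cons, Multiset.prod_cons, roots_mul, Multiset.filter_add,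
        Multiset.card_add, Multiset.card_cons, add_comm]
      · exact add_le_add ih (sec_pow_sub hd hdθ a)
      · refine mul_ne_zero (X_pow_sub_C_ne_zero hd a) ?_
        rw [Ne, Multiset.prod_eq_zero_iff, Multiset.mem_map]
        rintro ⟨w, _, h⟩
        exact X_pow_sub_C_ne_zero hd w h
  refine (hind _).trans ?_
  have := card_croots G
  unfold croots at this
  exact this.le

lemma sec_den_le {θ : ℝ} {e : ι → ℕ} {Q : ι → ℝ[X]} {S : Finset ι} (he : ∀ j ∈ S, 0 < e j)
    (hQ : ∀ j ∈ S, Q j ≠ 0) (hθ : ∀ j ∈ S, e j * θ ≤ Real.pi) :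
    sec θ (den e Q S) ≤ ∑ j ∈ S, (Q j).natDegree := by
  classical
  induction S using Finset.induction_on with
  | empty =>
    simp [den, sec, croots]
  | insert a S ha ih =>
    have h1 : den e Q (insert a S) = expand ℝ (e a) (Q a) * den e Q S := by
      unfold den; rw [Finset.prod_insert ha]
    have ha' := Finset.mem_insert_self a S
    have hS' : ∀ j ∈ S, j ∈ insert a S := fun j hj => Finset.mem_insert_of_mem hj
    rw [h1, Finset.sum_insert ha, sec_mul]
    · exact add_le_add (sec_expand_le (he a ha') (hθ a ha') (hQ a ha'))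
        (ih (fun j hj => he j (hS' j hj)) (fun j hj => hQ j (hS' j hj))
          (fun j hj => hθ j (hS' j hj)))
    · exact (Polynomial.expand_ne_zero (he a ha')).2 (hQ a ha')
    · exact den_ne_zero (fun j hj => he j (hS' j hj)) (fun j hj => hQ j (hS' j hj))

end

end Pool.Agent.T9h48
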