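import Pool.Agent.T9h48.RayFam

/-!
# Rotating a sum of rational functions of powers

`rotP φ P Q` and `rotQ φ Q` are numerator and denominator of the imaginary part of the real
rational function `P / Q` on the ray with the angle `φ`.
-/

open Polynomial Complex Filter Topology

set_option linter.unusedSectionVars false

namespace Pool.Agent.T9h48

noncomputable section

variable {ι : Type*} [DecidableEq ι]

/-- real part on the ray -/
def cosP (φ : ℝ) (P : ℝ[X]) : ℝ[X] := P.sum fun k a => monomial k (a * Real.cos (k * φ))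

/-- imaginary part on the ray -/
def sinP (φ : ℝ) (P : ℝ[X]) : ℝ[X] := P.sum fun k a => monomial k (a * Real.sin (k * φ))

lemma coeff_cosP (φ : ℝ) (P : ℝ[X]) (k : ℕ) : (cosP φ P).coeff k = P.coeff k * Real.cos (k * φ) := by
  unfold cosP
  rw [sum_def, finsetSum_coeff]
  simp only [coeff_monomial]
  rw [Finset.sum_ite_eq']
  split_ifs with h
  · rfl
  · rw [mem_support_iff, not_not] at h
    rw [h, zero_mul]

lemma coeff_sinP (φ : ℝ) (P : ℝ[X]) (k : ℕ) : (sinP φ P).coeff k = P.coeff k * Real.sin (k * φ) := by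
  unfold sinP
  rw [sum_def, finsetSum_coeff]
  simp only [coeff_monomial]
  rw [Finset.sum_ite_eq']
  split_ifs with h
  · rfl
  · rw [mem_support_iff, not_not] at h
    rw [h, zero_mul]

lemma natDegree_cosP_le (φ : ℝ) (P : ℝ[X]) : (cosP φ P).natDegree ≤ P.natDegree := by
  rw [natDegree_le_iff_coeff_eq_zero]
  intro k hk
  rw [coeff_cosP, coeff_eq_zero_of_natDegree_lt hk, zero_mul]

lemma natDegree_sinP_le (φ : ℝ) (P : ℝ[X]) : (sinP φ P).natDegree ≤ P.natDegree := by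
  rw [natDegree_le_iff_coeff_eq_zero]
  intro k hk
  rw [coeff_sinP, coeff_eq_zero_of_natDegree_lt hk, zero_mul]

/-- evaluation of a real polynomial at a complex number -/
def ev (P : ℝ[X]) (x : ℂ) : ℂ := (P.map ofRealHom).eval x

lemma ev_eq_sum (P : ℝ[X]) (x : ℂ) : ev P x = ∑ k ∈ P.support, (P.coeff k : ℂ) * x ^ k := by
  unfold ev
  rw [eval_map, eval₂_eq_sum, sum_def]
  rfl

lemma ev_eq_range (P : ℝ[X]) {n : ℕ} (hn : P.natDegree < n) (x : ℂ) :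
    ev P x = ∑ k ∈ Finset.range n, (P.coeff k : ℂ) * x ^ k := by
  unfold ev
  rw [eval_map, eval₂_eq_sum_range' _ hn]
  rfl

lemma ev_mul (P Q : ℝ[X]) (x : ℂ) : ev (P * Q) x = ev P x * ev Q x := by
  simp [ev]

lemma ev_add (P Q : ℝ[X]) (x : ℂ) : ev (P + Q) x = ev P x + ev Q x := by
  simp [ev]

lemma ev_sub (P Q : ℝ[X]) (x : ℂ) : ev (P - Q) x = ev P x - ev Q x := by
  simp [ev]

lemma ev_pow (P : ℝ[X]) (n : ℕ) (x : ℂ) : ev (P ^ n) x = ev P x ^ n := by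
  simp [ev]

lemma ev_expand (d : ℕ) (P : ℝ[X]) (x : ℂ) : ev (expand ℝ d P) x = ev P (x ^ d) := by
  unfold ev
  rw [map_expand, expand_eval]

lemma ev_ofReal (P : ℝ[X]) (y : ℝ) : ev P (y : ℂ) = ((P.eval y : ℝ) : ℂ) := eval_map_ofReal P y

lemma ev_conj (P : ℝ[X]) (x : ℂ) : ev P (starRingEnd ℂ x) = starRingEnd ℂ (ev P x) := by
  rw [ev_eq_sum, ev_eq_sum, map_sum]
  apply Finset.sum_congr rfl
  intro k _
  rw [map_mul, map_pow, conj_ofReal]

lemma ev_prod (S : Finset ι) (f : ι → ℝ[X]) (x : ℂ) : ev (∏ j ∈ S, f j) x = ∏ j ∈ S, ev (f j) x := by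
  unfold ev
  rw [Polynomial.map_prod, eval_prod]

lemma ev_sum (S : Finset ι) (f : ι → ℝ[X]) (x : ℂ) : ev (∑ j ∈ S, f j) x = ∑ j ∈ S, ev (f j) x := by
  unfold ev
  rw [Polynomial.map_sum, eval_finsetSum]

/-- `P (x ω) = cosP (x) + i sinP (x)` -/
lemma ev_rot (φ : ℝ) (P : ℝ[X]) (x : ℂ) :
    ev P (x * exp ((φ : ℂ) * I)) = ev (cosP φ P) x + I * ev (sinP φ P) x := by
  have h0 : P.natDegree < P.natDegree + 1 := Nat.lt_succ_self _
  rw [ev_eq_range P h0, ev_eq_range (cosP φ P) (lt_of_le_of_lt (natDegree_cosP_le φ P) h0),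
    ev_eq_range (sinP φ P) (lt_of_le_of_lt (natDegree_sinP_le φ P) h0), Finset.mul_sum,
    ← Finset.sum_add_distrib]
  apply Finset.sum_congr rfl
  intro k _
  rw [coeff_cosP, coeff_sinP, mul_pow, ← exp_nat_mul]
  have h1 : (k : ℂ) * ((φ : ℂ) * I) = (((k * φ : ℝ)) : ℂ) * I := by push_cast; ring
  rw [h1, exp_mul_I]
  push_cast
  ring

/-- `P (x ω⁻¹) = cosP (x) - i sinP (x)` -/
lemma ev_rot_neg (φ : ℝ) (P : ℝ[X]) (x : ℂ) :
    ev P (x * exp (-((φ : ℂ) * I))) = ev (cosP φ P) x - I * ev (sinP φ P) x := by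
  have h0 : P.natDegree < P.natDegree + 1 := Nat.lt_succ_self _
  rw [ev_eq_range P h0, ev_eq_range (cosP φ P) (lt_of_le_of_lt (natDegree_cosP_le φ P) h0),
    ev_eq_range (sinP φ P) (lt_of_le_of_lt (natDegree_sinP_le φ P) h0), Finset.mul_sum,
    ← Finset.sum_sub_distrib]
  apply Finset.sum_congr rfl
  intro k _
  rw [coeff_cosP, coeff_sinP, mul_pow, ← exp_nat_mul]
  have h1 : (k : ℂ) * (-((φ : ℂ) * I)) = -((((k * φ : ℝ)) : ℂ)) * I := by push_cast; ring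
  rw [h1, exp_mul_I, cos_neg, sin_neg]
  push_cast
  ring

/-- numerator of the imaginary part of `P / Q` on the ray -/
def rotP (φ : ℝ) (P Q : ℝ[X]) : ℝ[X] := sinP φ P * cosP φ Q - cosP φ P * sinP φ Q

/-- denominator of the imaginary part of `P / Q` on the ray -/
def rotQ (φ : ℝ) (Q : ℝ[X]) : ℝ[X] := cosP φ Q ^ 2 + sinP φ Q ^ 2

lemma rotQ_coeff (φ : ℝ) (Q : ℝ[X]) :
    (rotQ φ Q).coeff (Q.natDegree + Q.natDegree) = Q.leadingCoeff ^ 2 := by
  unfold rotQ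
  rw [coeff_add, pow_two, pow_two, coeff_mul_add_eq_of_natDegree_le (natDegree_cosP_le φ Q)
    (natDegree_cosP_le φ Q), coeff_mul_add_eq_of_natDegree_le (natDegree_sinP_le φ Q)
    (natDegree_sinP_le φ Q), coeff_cosP, coeff_sinP, leadingCoeff]
  have := Real.sin_sq_add_cos_sq (Q.natDegree * φ)
  linear_combination (Q.coeff Q.natDegree) ^ 2 * this

lemma natDegree_rotQ (φ : ℝ) {Q : ℝ[X]} (hQ : Q ≠ 0) :
    (rotQ φ Q).natDegree = Q.natDegree + Q.natDegree := by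
  apply natDegree_eq_of_le_of_coeff_ne_zero
  · unfold rotQ
    refine (natDegree_add_le _ _).trans (max_le ?_ ?_)
    · rw [pow_two]
      exact natDegree_mul_le.trans (add_le_add (natDegree_cosP_le φ Q) (natDegree_cosP_le φ Q))
    · rw [pow_two]
      exact natDegree_mul_le.trans (add_le_add (natDegree_sinP_le φ Q) (natDegree_sinP_le φ Q))
  · rw [rotQ_coeff]
    exact pow_ne_zero 2 (leadingCoeff_ne_zero.2 hQ)

lemma rotQ_ne_zero (φ : ℝ) {Q : ℝ[X]} (hQ : Q ≠ 0) : rotQ φ Q ≠ 0 := by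
  intro h
  have := rotQ_coeff φ Q
  rw [h, coeff_zero] at this
  exact pow_ne_zero 2 (leadingCoeff_ne_zero.2 hQ) this.symm

lemma natDegree_rotP_le (φ : ℝ) {P Q : ℝ[X]} (hQ : Q ≠ 0) (h : P.natDegree ≤ Q.natDegree) :
    (rotP φ P Q).natDegree ≤ (rotQ φ Q).natDegree := by
  rw [natDegree_rotQ φ hQ]
  unfold rotP
  refine (natDegree_sub_le _ _).trans (max_le ?_ ?_)
  · exact natDegree_mul_le.trans (add_le_add ((natDegree_sinP_le φ P).trans h)
      (natDegree_cosP_le φ Q))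
  · exact natDegree_mul_le.trans (add_le_add ((natDegree_cosP_le φ P).trans h)
      (natDegree_sinP_le φ Q))

lemma rotQ_eval_zero (φ : ℝ) {Q : ℝ[X]} (h : Q.eval 0 ≠ 0) : (rotQ φ Q).eval 0 ≠ 0 := by
  unfold rotQ
  rw [← coeff_zero_eq_eval_zero] at h
  have h1 : (cosP φ Q).eval 0 = Q.coeff 0 := by
    rw [← coeff_zero_eq_eval_zero, coeff_cosP]; simp
  have h2 : (sinP φ Q).eval 0 = 0 := by
    rw [← coeff_zero_eq_eval_zero, coeff_sinP]; simp
  rw [eval_add, eval_pow, eval_pow, h1, h2]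
  simpa using h

lemma rotP_eq_zero_of_pi {φ : ℝ} (hφ : φ = Real.pi) (P Q : ℝ[X]) : rotP φ P Q = 0 := by
  have h : ∀ G : ℝ[X], sinP φ G = 0 := by
    intro G
    ext k
    rw [coeff_sinP, hφ, Real.sin_nat_mul_pi, mul_zero, coeff_zero]
  unfold rotP
  rw [h, h]; simp

/-- the imaginary part of `P conj Q` on the ray -/
lemma rotP_eval (φ : ℝ) (P Q : ℝ[X]) (w : ℝ) :
    (rotP φ P Q).eval w = (ev P ((w : ℂ) * exp ((φ : ℂ) * I)) *
      starRingEnd ℂ (ev Q ((w : ℂ) * exp ((φ : ℂ) * I)))).im := by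
  rw [ev_rot, ev_rot, ev_ofReal, ev_ofReal, ev_ofReal, ev_ofReal]
  unfold rotP
  simp only [eval_sub, eval_mul, map_add, map_mul, conj_ofReal, conj_I, mul_im, add_re, add_im,
    ofReal_re, ofReal_im, mul_re, I_re, I_im, neg_re, neg_im]
  ring

lemma rotQ_eval (φ : ℝ) (Q : ℝ[X]) (w : ℝ) :
    (((rotQ φ Q).eval w : ℝ) : ℂ) = ev Q ((w : ℂ) * exp ((φ : ℂ) * I)) *
      starRingEnd ℂ (ev Q ((w : ℂ) * exp ((φ : ℂ) * I))) := by
  rw [ev_rot, ev_ofReal, ev_ofReal]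
  unfold rotQ
  simp only [eval_add, eval_pow, map_add, map_mul, conj_ofReal, conj_I]
  push_cast
  linear_combination ((eval w (sinP φ Q) : ℝ) : ℂ) ^ 2 * I_sq

/-- the values of `rotP` and `rotQ` on the ray -/
lemma rotP_ray (φ : ℝ) (P Q : ℝ[X]) (w : ℝ) :
    2 * I * ev (rotP φ P Q) ((w : ℂ) * exp ((φ : ℂ) * I)) =
      ev P ((w : ℂ) * exp (((2 * φ : ℝ) : ℂ) * I)) * ev Q w -
      ev P w * ev Q ((w : ℂ) * exp (((2 * φ : ℝ) : ℂ) * I)) := by
  have e1 : (w : ℂ) * exp (((2 * φ : ℝ) : ℂ) * I) =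
      (w : ℂ) * exp ((φ : ℂ) * I) * exp ((φ : ℂ) * I) := by
    rw [mul_assoc, ← exp_add]; congr 2; push_cast; ring
  have e2 : (w : ℂ) = (w : ℂ) * exp ((φ : ℂ) * I) * exp (-((φ : ℂ) * I)) := by
    rw [mul_assoc, ← exp_add]; simp
  have hP1 := ev_rot φ P ((w : ℂ) * exp ((φ : ℂ) * I))
  have hQ1 := ev_rot φ Q ((w : ℂ) * exp ((φ : ℂ) * I))
  have hP2 := ev_rot_neg φ P ((w : ℂ) * exp ((φ : ℂ) * I))
  have hQ2 := ev_rot_neg φ Q ((w : ℂ) * exp ((φ : ℂ) * I))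
  rw [← e1] at hP1 hQ1
  rw [← e2] at hP2 hQ2
  rw [hP1, hQ1, hP2, hQ2]
  unfold rotP
  rw [ev_sub, ev_mul, ev_mul]
  ring

lemma rotQ_ray (φ : ℝ) (Q : ℝ[X]) (w : ℝ) :
    ev (rotQ φ Q) ((w : ℂ) * exp ((φ : ℂ) * I)) =
      ev Q ((w : ℂ) * exp (((2 * φ : ℝ) : ℂ) * I)) * ev Q w := by
  have e1 : (w : ℂ) * exp (((2 * φ : ℝ) : ℂ) * I) =
      (w : ℂ) * exp ((φ : ℂ) * I) * exp ((φ : ℂ) * I) := by
    rw [mul_assoc, ← exp_add]; congr 2; push_cast; ring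
  have e2 : (w : ℂ) = (w : ℂ) * exp ((φ : ℂ) * I) * exp (-((φ : ℂ) * I)) := by
    rw [mul_assoc, ← exp_add]; simp
  have hQ1 := ev_rot φ Q ((w : ℂ) * exp ((φ : ℂ) * I))
  have hQ2 := ev_rot_neg φ Q ((w : ℂ) * exp ((φ : ℂ) * I))
  rw [← e1] at hQ1
  rw [← e2] at hQ2
  rw [hQ1, hQ2]
  unfold rotQ
  rw [ev_add, ev_pow, ev_pow]
  linear_combination (ev (sinP φ Q) ((w : ℂ) * exp ((φ : ℂ) * I))) ^ 2 * I_sq

end

end Pool.Agent.T9h48
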