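import Pool.Agent.T9h48.Rot

/-!
# The two steps

`step_im`: from a sum of rational functions of powers to its imaginary part on a ray.
`step_re`: from the imaginary part on the ray with the angle `θ` to the one on the ray with the
angle `2 θ`.
-/

open Polynomial Complex Filter Topology

set_option linter.unusedSectionVars false

namespace Pool.Agent.T9h48

noncomputable section

variable {ι : Type*} [DecidableEq ι]

/-- numerators of the family turned by the angle `θ` -/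
def rP (θ : ℝ) (e : ι → ℕ) (P Q : ι → ℝ[X]) : ι → ℝ[X] := fun j => rotP (e j * θ) (P j) (Q j)

/-- denominators of the family turned by the angle `θ` -/
def rQ (θ : ℝ) (e : ι → ℕ) (Q : ι → ℝ[X]) : ι → ℝ[X] := fun j => rotQ (e j * θ) (Q j)

lemma ev_den (e : ι → ℕ) (Q : ι → ℝ[X]) (S : Finset ι) (x : ℂ) :
    ev (den e Q S) x = ∏ j ∈ S, ev (Q j) (x ^ e j) := by
  unfold den
  rw [ev_prod]
  exact Finset.prod_congr rfl fun j _ => ev_expand _ _ _

lemma ev_num (e : ι → ℕ) (P Q : ι → ℝ[X]) (S : Finset ι) (x : ℂ) :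
    ev (num e P Q S) x = ∑ j ∈ S, ev (P j) (x ^ e j) * ∏ i ∈ S.erase j, ev (Q i) (x ^ e i) := by
  unfold num
  rw [ev_sum]
  refine Finset.sum_congr rfl fun j _ => ?_
  rw [ev_mul, ev_prod, ev_expand]
  congr 1
  exact Finset.prod_congr rfl fun j _ => ev_expand _ _ _

lemma ray_pow (y θ : ℝ) (d : ℕ) :
    ((y : ℂ) * exp ((θ : ℂ) * I)) ^ d = ((y ^ d : ℝ) : ℂ) * exp (((d * θ : ℝ) : ℂ) * I) := by
  rw [mul_pow, ← exp_nat_mul]
  push_cast
  congr 2
  ring

lemma num_mul_conj (e : ι → ℕ) (P Q : ι → ℝ[X]) (S : Finset ι) (x : ℂ) :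
    ev (num e P Q S) x * starRingEnd ℂ (ev (den e Q S) x) =
      ∑ j ∈ S, (ev (P j) (x ^ e j) * starRingEnd ℂ (ev (Q j) (x ^ e j))) *
        ∏ i ∈ S.erase j, (ev (Q i) (x ^ e i) * starRingEnd ℂ (ev (Q i) (x ^ e i))) := by
  rw [ev_num, ev_den, Finset.sum_mul]
  refine Finset.sum_congr rfl fun j hj => ?_
  rw [map_prod, ← Finset.mul_prod_erase S _ hj, Finset.prod_mul_distrib]
  ring

/-- first identity: the imaginary part of `num * conj den` on the ray -/
lemma im_identity (θ : ℝ) (e : ι → ℕ) (P Q : ι → ℝ[X]) (S : Finset ι) (y : ℝ) :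
    (num e (rP θ e P Q) (rQ θ e Q) S).eval y =
      (ev (num e P Q S) ((y : ℂ) * exp ((θ : ℂ) * I)) *
        starRingEnd ℂ (ev (den e Q S) ((y : ℂ) * exp ((θ : ℂ) * I)))).im := by
  rw [num_mul_conj, im_sum]
  unfold num
  rw [eval_finsetSum]
  refine Finset.sum_congr rfl fun j _ => ?_
  rw [eval_mul, expand_eval, eval_prod]
  have h1 : ∏ i ∈ S.erase j, (ev (Q i) (((y : ℂ) * exp ((θ : ℂ) * I)) ^ e i) *
      starRingEnd ℂ (ev (Q i) (((y : ℂ) * exp ((θ : ℂ) * I)) ^ e i))) =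
      ((∏ i ∈ S.erase j, (expand ℝ (e i) (rQ θ e Q i)).eval y : ℝ) : ℂ) := by
    rw [ofReal_prod]
    refine Finset.prod_congr rfl fun i _ => ?_
    rw [ray_pow, expand_eval]
    unfold rQ
    rw [rotQ_eval]
  rw [h1, im_mul_ofReal]
  congr 1
  unfold rP
  rw [rotP_eval, ray_pow]

/-- second identity -/
lemma re_identity (θ : ℝ) (e : ι → ℕ) (P Q : ι → ℝ[X]) (S : Finset ι) (y : ℝ) :
    (C (1 / 2 : ℝ) * den e Q S ^ 2 * num e (rP (2 * θ) e P Q) (rQ (2 * θ) e Q) S).eval y =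
      (ev (num e (rP θ e P Q) (rQ θ e Q) S) ((y : ℂ) * exp ((θ : ℂ) * I)) *
        starRingEnd ℂ (ev (den e (rQ θ e Q) S) ((y : ℂ) * exp ((θ : ℂ) * I)))).re := by
  have key : 2 * I * (ev (num e (rP θ e P Q) (rQ θ e Q) S) ((y : ℂ) * exp ((θ : ℂ) * I)) *
        starRingEnd ℂ (ev (den e (rQ θ e Q) S) ((y : ℂ) * exp ((θ : ℂ) * I)))) =
      ((((den e Q S).eval y) ^ 2 : ℝ) : ℂ) *
        (ev (num e P Q S) ((y : ℂ) * exp (((2 * θ : ℝ) : ℂ) * I)) *
          starRingEnd ℂ (ev (den e Q S) ((y : ℂ) * exp (((2 * θ : ℝ) : ℂ) * I)))) -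
      ((((num e P Q S).eval y * (den e Q S).eval y : ℝ)) : ℂ) *
        (ev (den e Q S) ((y : ℂ) * exp (((2 * θ : ℝ) : ℂ) * I)) *
          starRingEnd ℂ (ev (den e Q S) ((y : ℂ) * exp (((2 * θ : ℝ) : ℂ) * I)))) := by
    have hden : ∀ T : Finset ι, ev (den e (rQ θ e Q) T) ((y : ℂ) * exp ((θ : ℂ) * I)) =
        ev (den e Q T) ((y : ℂ) * exp (((2 * θ : ℝ) : ℂ) * I)) * ev (den e Q T) y := by
      intro T
      rw [ev_den, ev_den, ev_den, ← Finset.prod_mul_distrib]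
      refine Finset.prod_congr rfl fun j _ => ?_
      rw [ray_pow, ray_pow]
      unfold rQ
      rw [rotQ_ray]
      push_cast
      congr 5
      ring
    have hnum : 2 * I * ev (num e (rP θ e P Q) (rQ θ e Q) S) ((y : ℂ) * exp ((θ : ℂ) * I)) =
        ev (num e P Q S) ((y : ℂ) * exp (((2 * θ : ℝ) : ℂ) * I)) * ev (den e Q S) y -
        ev (num e P Q S) y * ev (den e Q S) ((y : ℂ) * exp (((2 * θ : ℝ) : ℂ) * I)) := by
      rw [ev_num, ev_num, ev_num, Finset.mul_sum, Finset.sum_mul, Finset.sum_mul,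
        ← Finset.sum_sub_distrib]
      refine Finset.sum_congr rfl fun j hj => ?_
      have h1 : ∏ i ∈ S.erase j, ev (rQ θ e Q i) (((y : ℂ) * exp ((θ : ℂ) * I)) ^ e i) =
          (∏ i ∈ S.erase j, ev (Q i) (((y : ℂ) * exp (((2 * θ : ℝ) : ℂ) * I)) ^ e i)) *
          ∏ i ∈ S.erase j, ev (Q i) ((y : ℂ) ^ e i) := by
        have := hden (S.erase j)
        rw [ev_den, ev_den, ev_den] at this
        exact this
      rw [h1, ev_den, ev_den, ← Finset.mul_prod_erase S _ hj, ← Finset.mul_prod_erase S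
        (fun i => ev (Q i) (((y : ℂ) * exp (((2 * θ : ℝ) : ℂ) * I)) ^ e i)) hj]
      have h2 : 2 * I * ev (rP θ e P Q j) (((y : ℂ) * exp ((θ : ℂ) * I)) ^ e j) =
          ev (P j) (((y : ℂ) * exp (((2 * θ : ℝ) : ℂ) * I)) ^ e j) * ev (Q j) ((y : ℂ) ^ e j) -
          ev (P j) ((y : ℂ) ^ e j) *
            ev (Q j) (((y : ℂ) * exp (((2 * θ : ℝ) : ℂ) * I)) ^ e j) := by
        rw [ray_pow, ray_pow]
        unfold rP
        rw [rotP_ray]
        push_cast
        have h3 : (2 : ℂ) * ((e j : ℂ) * (θ : ℂ)) = (e j : ℂ) * (2 * (θ : ℂ)) := by ring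
        rw [h3]
      linear_combination (∏ i ∈ S.erase j, ev (Q i) (((y : ℂ) * exp (((2 * θ : ℝ) : ℂ) * I)) ^ e i))
        * (∏ i ∈ S.erase j, ev (Q i) ((y : ℂ) ^ e i)) * h2
    have hc : starRingEnd ℂ (ev (den e Q S) (y : ℂ)) = ev (den e Q S) (y : ℂ) := by
      rw [ev_ofReal, conj_ofReal]
    rw [hden S, map_mul, hc, ← mul_assoc, hnum]
    rw [ev_ofReal, ev_ofReal]
    push_cast
    ring
  have him := im_identity (2 * θ) e P Q S y
  have hk := congrArg Complex.im key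
  rw [sub_im, im_ofReal_mul, im_ofReal_mul, ← him, mul_conj, ofReal_im, mul_zero, sub_zero] at hk
  have h4 : ∀ z : ℂ, (2 * I * z).im = 2 * z.re := by
    intro z
    simp [mul_im]
  rw [h4] at hk
  rw [eval_mul, eval_mul, eval_C, eval_pow]
  linarith

end

end Pool.Agent.T9h48
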